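import Pool.Agent.DL.EX.Spec
import Pool.Agent.DL.KC

/-!
# MP_3ff0f8_gt, ALGEBRA HALF, K block (helper25): the K-lemmas

`KZ G` (`DL/Defs.lean`): a combination of coherence functions which is cubic kills `Z_2(G)`.  This block: `KZ G` from `KZ` of
smaller graphs.  Module `XXX` = file `DL/K/XXX.lean`, theorem `specXXX (hYYY : SpecYYY) … : SpecXXX`; the hypotheses may be any
other Specs named in the docstring (also of `DL/EX/Spec.lean`); own lemmas in the namespace `DL.XXXM`.  Base library: `DL/PC.lean`,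
`DL/PC2.lean`, `DL/MENG.lean`, `DL/KC.lean` (helper59).  Text: /team-store/MP_3ff0f8_gt_K_h97.md sections 3-5 (the docstrings here
are self-contained; K-CC is proved here without the dimension formula).
-/

open SimpleGraph Finset

namespace DL

/-- `z` is killed by all cubic combinations of coherence functions of `G` -/
def Kur {α : Type} [Fintype α] [DecidableEq α] (G : SimpleGraph α) (z : Sym2 α → Sym2 α → ZMod 2) : Prop :=
  ∀ l : α → α → α → α → ZMod 2, InP3 G (cohs l) → pair2 l z = 0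

/-- **KUR** (from PC; 120 lines).  Elementary facts.  `kz`: by definition (`cohs` is the sum in the definition of `KZ`).  `mono`: a
cubic combination of `G'` is one of `G ≤ G'` (a cycle of `G` is one of `G'`).  `del`: no entry with the edge `ab` is left.  `row`: boundary of
the row of `ab` at `v ≠ a, b` is `0`, no edge of the row meets `ab`.  `tor`: the torus of two chains with disjoint vertex sets `P`, `Q`. -/
structure SpecKUR : Prop where
  kz : ∀ {α : Type} [Fintype α] [DecidableEq α] (G : SimpleGraph α), KZ G ↔ ∀ z, IsZ2 G z → Kur G z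
  add : ∀ {α : Type} [Fintype α] [DecidableEq α] {G : SimpleGraph α} {z z' : Sym2 α → Sym2 α → ZMod 2},
    Kur G z → Kur G z' → Kur G (fun e f => z e f + z' e f)
  mono : ∀ {α : Type} [Fintype α] [DecidableEq α] {G G' : SimpleGraph α} {z : Sym2 α → Sym2 α → ZMod 2},
    G ≤ G' → Kur G z → Kur G' z
  zmono : ∀ {α : Type} [Fintype α] [DecidableEq α] {G G' : SimpleGraph α} {z : Sym2 α → Sym2 α → ZMod 2},
    G ≤ G' → IsZ2 G z → IsZ2 G' z
  zadd : ∀ {α : Type} [Fintype α] [DecidableEq α] {G : SimpleGraph α} {z z' : Sym2 α → Sym2 α → ZMod 2},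
    IsZ2 G z → IsZ2 G z' → IsZ2 G (fun e f => z e f + z' e f)
  del : ∀ {α : Type} [Fintype α] [DecidableEq α] {G : SimpleGraph α} {z : Sym2 α → Sym2 α → ZMod 2} {a b : α},
    IsZ2 G z → (∀ f, z s(a, b) f = 0) → IsZ2 (delE G a b) z
  row : ∀ {α : Type} [Fintype α] [DecidableEq α] {G : SimpleGraph α} {z : Sym2 α → Sym2 α → ZMod 2} (a b : α),
    IsZ2 G z → z s(a, b) ∈ Z1 (DL.del G {a, b})
  tor : ∀ {α : Type} [Fintype α] [DecidableEq α] {G : SimpleGraph α} {t Z : Chain α} (P Q : Finset α),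
    t ∈ Z1 G → Z ∈ Z1 G → (∀ e v, t e ≠ 0 → v ∈ e → v ∈ P) → (∀ e v, Z e ≠ 0 → v ∈ e → v ∈ Q) → Disjoint P Q →
    IsZ2 G (fun e f => t e * Z f + Z e * t f)

/-- **STA** (from PC2.cut, .cob_orth; 120 lines).  `ρ_l ∩ ρ_m`.  A linear functional `Z ↦ Σ a e Z e` on `Z1 J` which vanishes on `Z1 (J - l)` and
`Z1 (J - m)` is a multiple of the coordinate `lm` (zero if `l`, `m` are not adjacent), if `J - l - m` is connected.  Proof: by
`cut` for `J - l` there is `s` with `a (xy) = s x + s y` on the edges of `J - l`; replace `a` by `a + cob s` (does not change the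
functional, `cob_orth`): now `a = 0` on the edges of `J - l`.  By `cut` for `J - m` there is `t` with `a (xy) = t x + t y` on the
edges of `J - m`; on the edges of `J - l - m` this is `0`, so `t` is constant `= t₀` on the vertices `≠ l, m` of `J` (`ConnOff`).  So
`a (l x) = t l + t₀ =: k` for all neighbours `x ≠ m` of `l` (if there is one), and adding `k • cob 1_l` gives a function which is zero on all edges of
`J` except `lm`. -/
def SpecSTA : Prop := ∀ {α : Type} [Fintype α] [DecidableEq α] (J : SimpleGraph α) (l m : α), l ≠ m →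
  ConnOff J {l, m} → ∀ a : Chain α, (∀ Z ∈ Z1 (del J {l}), ∑ e, a e * Z e = 0) →
  (∀ Z ∈ Z1 (del J {m}), ∑ e, a e * Z e = 0) →
  ∃ c : ZMod 2, (c ≠ 0 → J.Adj l m) ∧ ∀ Z ∈ Z1 J, ∑ e, a e * Z e = c * Z s(l, m)

/-- **SM3** (from STA, KC; 100 lines).  `Z1 (J - k) + Z1 (J - l) + Z1 (J - m) = Z1 J` for a 3-connected graph.  Otherwise
a linear functional of the chains (every one is `Z ↦ Σ a e Z e`) vanishes on the three spaces and not on `Z1 J` (`Submodule.exists_le_ker_of_notMem` or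
dual annihilators).  STA: on `Z1 J` it is `c * Z (lm)`; if `c ≠ 0` then `l ~ m` and `J - k` is 2-connected, so it has a cycle
through `lm` (`KConn.cycle_through_edge`), on which the functional is `c`. -/
def SpecSM3 : Prop := ∀ {α : Type} [Fintype α] [DecidableEq α] (J : SimpleGraph α), KConn 3 J →
  ∀ k l m : α, k ≠ l → k ≠ m → l ≠ m → ∀ c ∈ Z1 J,
    ∃ c₁ ∈ Z1 (del J {k}), ∃ c₂ ∈ Z1 (del J {l}), ∃ c₃ ∈ Z1 (del J {m}), c = c₁ + c₂ + c₃

/-- **SM4** (from STA, KC; 250 lines).  `J` 3-connected, `w : Fin 4 → α` injective with values in `J`, and `J` has another vertex.  Every element of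
`A_0 = Z1 (J - w 0)` is a sum of elements of `A_0 ∩ (A_2 + A_3)`, `A_0 ∩ (A_1 + A_3)`, `A_0 ∩ (A_1 + A_2)`.  Otherwise a functional `φ`
(edge function `a`) vanishes on the three spaces and not on `A_0`.  In finite dimension `(A_0 ∩ (A_l + A_m))^⊥ = A_0^⊥ + (A_l^⊥ ∩ A_m^⊥)`
(`Subspace.dualAnnihilator_inf_eq`, `Submodule.dualAnnihilator_sup_eq`), and by STA `A_l^⊥ ∩ A_m^⊥` acts on `Z1 J` by multiples of `Z (w_l w_m)` (zero if not
adjacent).  So on `A_0` `φ = c_lm Z (w_l w_m)` for each of the three pairs, all `c_lm = 1`, `w₁, w₂, w₃` pairwise adjacent, and `Z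
(w₁w₂) = Z (w₁w₃) = Z (w₂w₃)` for all `Z ∈ A_0`.  Let `r` be a vertex of `J` not among the `w i`.  `J - w₀` is 2-connected: let `r = r`; there is a
path in `J - w₀` from `r` to `{w₁, w₂, w₃}`, so one of them, say `w₁`, has a neighbour `y` in `J - w₀`, `y ≠ w₂, w₃`.  `J - w₀ - w₁` is connected:
path from `y` to `{w₂, w₃}` with first such vertex `w₂` say: the cycle `w₁ y … w₂ w₁` contains `w₁w₂` and not `w₁w₃`: contradiction. -/
def SpecSM4 : Prop := ∀ {α : Type} [Fintype α] [DecidableEq α] (J : SimpleGraph α), KConn 3 J →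
  ∀ w : Fin 4 → α, Function.Injective w → (∀ i, w i ∈ VS J) → (∃ r ∈ VS J, ∀ i, r ≠ w i) →
  ∀ c ∈ Z1 (del J {w 0}), ∃ ν : Fin 4 → Chain α, (∀ p, ν p ∈ Z1 (del J {w 0})) ∧ ν 0 = 0 ∧
    c = ν 1 + ν 2 + ν 3 ∧
    ∀ p, p ≠ 0 → ∃ β : Fin 4 → Chain α, β 0 = 0 ∧ β p = 0 ∧ (∀ i, β i ∈ Z1 (del J {w i})) ∧
      ν p = β 1 + β 2 + β 3

/-- **KDD** (from KUR, LPE; 60 lines).  (K-DD) `ab`, `ac` adjacent edges.  `z ∈ Z_2(G)`, `Z := z (ab) ·` has no edge at `a`.  LPE.edge for
`delE G a c` and the edge `ab` gives `z' ∈ Z_2(delE G a c)` with `z' (ab) · = Z`, killed.  `z + z'` has zero row at `ab`: in `Z_2(delE G a b)`,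
killed. -/
def SpecKDD : Prop := ∀ {α : Type} [Fintype α] [DecidableEq α] {G : SimpleGraph α} {a b c : α}, G.Adj a b →
  G.Adj a c → b ≠ c → KZ (delE G a b) → KZ (delE G a c) → S3S (delE (delE G a c) a b) →
  a ∈ VS (delE (delE G a c) a b) → b ∈ VS (delE (delE G a c) a b) → KZ G

/-- **KST** (from KUR, SM3, S3F, LPE; 80 lines).  (K-STAR) `u` of degree `≥ 5`, `J = G - u` 3-connected.  `λ = z (u w₁) ·` is in `Z1 (J - w₁)`;
SM3: `λ = c₃ + c₄ + c₅`, `c_m ∈ Z1 (J - w_m)`.  LPE.star for `delE G u w₂` (`la w₁ = λ`, `la w_m = c_m`): `z' ∈ Z_2(delE G u w₂)` with row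
`λ` at `u w₁`.  `z + z' ∈ Z_2(delE G u w₁)`. -/
def SpecKST : Prop := ∀ {α : Type} [Fintype α] [DecidableEq α] {G : SimpleGraph α} {u : α},
  KConn 3 (del G {u}) → ∀ w : Fin 5 → α, Function.Injective w →
  (∀ i, G.Adj u (w i) ∧ w i ∈ VS (del G {u})) → KZ (delE G u (w 0)) → KZ (delE G u (w 1)) → KZ G

/-- **KS4** (from KUR, SM4, S3F, LPE; 120 lines).  (K-STAR) `u` of degree 4.  `λ = z (u w₀) ·`, SM4: `λ = ν₁ + ν₂ + ν₃`, `ν_p = Σ_{m ≠ 0, p} β_m`.
LPE.star for `delE G u (w p)` (`la w₀ = ν_p`, `la w_m = β_m`, `la w_p = 0`) gives `z_p ∈ Z_2(delE G u (w p))` with row `ν_p` at `u w₀`.  `z + z₁ + z₂ + z₃ ∈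
Z_2(delE G u (w 0))`. -/
def SpecKS4 : Prop := ∀ {α : Type} [Fintype α] [DecidableEq α] {G : SimpleGraph α} {u : α},
  KConn 3 (del G {u}) → ∀ w : Fin 4 → α, Function.Injective w → (∀ x, G.Adj u x ↔ ∃ i, x = w i) →
  (∀ i, w i ∈ VS (del G {u})) → (∃ r ∈ VS G, r ≠ u ∧ ∀ i, r ≠ w i) → (∀ i, KZ (delE G u (w i))) → KZ G

/-- **K2G** (from KUR, L2M, K2M, VRW, POL, SEF, PC2; 150 lines).  L2M (no common neighbour, `K = ∅`) and K2M (`contr G a b` 3-connected) for all `l`.  Let `cohs l` be cubic on the cycles of `G`.  Replace the terms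
with the edge `ab`: for `c, d ≠ a` the coefficient of `coh a b c d` is moved to all the `coh a x c d`, `x ≠ b`; this does not change
`cohs` modulo cubic functions (VRW.vr) nor `pair2 · z` for `z ∈ Z_2(G)` (boundary of the row of `cd` at `a`); `coh a b c d` with `a ∈ {c, d}` is polynomial
on cycles (PC2.coh_share) and `z (ab) (cd) = 0`; `coh b a c d = coh a b c d + x_{ab} x_{cd}`, `coh c d a b`: IsCyc.coh_add_swap, .coh_comm,
.coh_reverse.  Then L2M, K2M. -/
def SpecK2G : Prop := ∀ {α : Type} [Fintype α] [DecidableEq α] {G : SimpleGraph α} {a b : α}, G.Adj a b →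
  (NoCN G a b ∨ KConn 3 (contr G a b)) → KZ (contr G a b) → (∀ x, G.Adj a x → G.Adj b x → S3S (delE (contr G a b) a x)) →
  ∀ z, IsZ2 G z → (∀ e f, a ∈ e → b ∈ f → e ≠ s(a, b) → f ≠ s(a, b) → z e f = 0) → Kur G z

/-- **KSU** (from KUR, K2G; 60 lines).  Subdivision.  `v` has exactly the neighbours `p ≠ q`, not adjacent; `contr J p v` is `J - v` with the
edge `pq`; `p`, `v` have no common neighbour.  Every `z ∈ Z_2(J)` vanishes on (edges `e ≠ pv` at `p`) × (edge `vq`): the boundary of the row `e` at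
`v` is `z e (vp) + z e (vq) = 0` and `z e (vp) = 0` (common vertex `p`).  So K2G (with `a = p`, `b = v`) applies to all `z`. -/
def SpecKSU : Prop := ∀ {α : Type} [Fintype α] [DecidableEq α] {J : SimpleGraph α} {v p q : α}, p ≠ q →
  (∀ w, J.Adj v w ↔ w = p ∨ w = q) → ¬ J.Adj p q → KZ (contr J p v) → KZ J

/-- **KCD** (from KUR, K2G, LPE, CTA, CTZ, SEF; 250 lines).  (K-CD) `ab` and `cd` disjoint edges, contraction of `ab` and deletion of `cd`.
`z ∈ Z_2(G)`, `Z = z (cd) · ∈ Z1 (G - c - d)`.  For a common neighbour `x ≠ c, d` of `a`, `b` let `t_x` = chain of the triangle `abx`, `Z_x ∈ Z1 (G - {a, b,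
x})` with `Z_x (cd) = 1`; the torus `τ_x = t_x ⊗ Z_x` (KUR.tor) has row `t_x` at `cd` and is `0` on `A × B`: Kur (K2G).  If `x ∈ {c, d}` then `Z (bx) =
0`.  `Z' := Z + Σ_x Z (bx) t_x` has `Z' (bx) = 0` for all common neighbours.  `Z'' := prj a b Z' ∈ Z1 (H - c - d)`, `H = contr G a b`; LPE.edge
for `H` and `cd`: `w ∈ Z_2(H)` with row `Z''` at `cd`; CTZ.up for `sel G a b ∅` (edges `bx` deleted): `z' ∈ Z_2(sel G a b ∅) ⊆ Z_2(G)`, `z' e f = w (m
e) (m f)`, `= 0` on `A × B`: Kur (K2G).  Row of `z'` at `cd`: for an edge `f ≠ ab` of `sel G a b ∅` it is `Z'' (m f) = Z' f` (the other edges over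
`m f` are `ab` or some `bx`, where `Z'` is zero), at `bx` both are `0`, and the value at `ab` is determined by the boundary at `a`.  So
`z + z' + Σ_x Z (bx) τ_x` has zero row at `cd`: it is in `Z_2(delE G c d)`. -/
def SpecKCD : Prop := ∀ {α : Type} [Fintype α] [DecidableEq α] {G : SimpleGraph α} {a b c d : α}, G.Adj a b →
  G.Adj c d → a ≠ c → a ≠ d → b ≠ c → b ≠ d → KConn 3 (contr G a b) → KZ (contr G a b) →
  (∀ x, G.Adj a x → G.Adj b x → S3S (delE (contr G a b) a x)) → KZ (delE G c d) →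
  S3S (delE (contr G a b) c d) → c ∈ VS (delE (contr G a b) c d) → d ∈ VS (delE (contr G a b) c d) →
  (∀ x, G.Adj a x → G.Adj b x → x ≠ c → x ≠ d → ∃ Z ∈ Z1 (del G {a, b, x}), Z s(c, d) = 1) → KZ G

/-- **MAT** (from LPE, PC; 200 lines).  Prescribing a 2-cycle on `A × B`.  For a neighbour `x ≠ b` of `a` with `M x ≠ 0`
let `λ_x := Σ_y M x (by) • (chi {by} + chi P_y)`, `P_y` a path from `y` to a fixed `y₀` in the connected graph `H - {a, b, x}`, (over the neighbours `y ≠ a, x` of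
`b`): `λ_x ∈ Z1 (H - a - x)` because the row is even, with `λ_x (by) = M x (by)`.  `λ_b := Σ_{x ≠ b} λ_x` has `λ_b (by) = 0` for all `y`, so it is in
`Z1 (H - a - b)`.  LPE.star for `u = a`. -/
def SpecMAT : Prop := ∀ {α : Type} [Fintype α] [DecidableEq α] {H : SimpleGraph α} {a b : α}, H.Adj a b →
  KConn 3 H → S3S (del H {a}) → (∀ x, H.Adj a x → x ≠ b → ConnOff H {a, b, x}) →
  ∀ M : α → Chain α, (∀ x, M x ≠ 0 → H.Adj a x ∧ x ≠ b) →
  (∀ x e, M x e ≠ 0 → e ∈ H.edgeSet ∧ b ∈ e ∧ a ∉ e ∧ x ∉ e) → (∀ x, ∑ e, M x e = 0) → ∑ x, M x = 0 →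
  ∃ w, IsZ2 H w ∧ ∀ x y, H.Adj a x → x ≠ b → H.Adj b y → y ≠ a → w s(a, x) s(b, y) = M x s(b, y)

/-- **KC0** (from KUR, K2G, MAT, CTZ; 200 lines).  (K-CC) two contractions `ab`, `cd` in no triangle and not opposite in a 4-cycle.
`H = contr G c d`.  `z ∈ Z_2(G)`.  For an edge `ax` of `H` (`x ≠ b`) let `ax'` be the edge of `G` over it (`x' = x`, or `x' ∈ {c, d}` if `x = c`; unique by `NoCN G c d`), `by'`
similarly; `M x (by) := z (ax') (by')`.  It is `0` for `y = x` (then `x' = y'`: `NoCN G a b`; or `{x', y'} = {c, d}`: excluded).  Rows: boundary of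
the row `ax'` of `z` at `b` (`z (ax') (ab) = 0`); columns the same.  MAT: `w ∈ Z_2(H)`; CTZ.up: `z' ∈ Z_2(G)`, `z' e f = w (m e) (m f)` for `e, f ≠ cd`.  `z'` is
zero on (edges at `c`) × (edges at `d`): Kur by K2G for `cd`.  `z + z'` is zero on (edges at `a`) × (edges at `b`): Kur by K2G for
`ab`. -/
def SpecKC0 : Prop := ∀ {α : Type} [Fintype α] [DecidableEq α] {G : SimpleGraph α} {a b c d : α}, G.Adj a b →
  G.Adj c d → a ≠ c → a ≠ d → b ≠ c → b ≠ d → NoCN G a b → NoCN G c d →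
  ¬ (G.Adj a c ∧ G.Adj b d) → ¬ (G.Adj a d ∧ G.Adj b c) → KConn 3 (contr G c d) →
  S3S (del (contr G c d) {a}) → (∀ x, (contr G c d).Adj a x → x ≠ b → ConnOff (contr G c d) {a, b, x}) →
  KZ (contr G a b) → KZ (contr G c d) → KZ G

/-- **C1L** (from KC, S3F; 150 lines).  C1 LEMMA.  `J = delE S v w` is 2-connected.  A 2-cut `{p, q}` of `J` (`p, q ≠ v, w`, since `S - {p, q}` is connected
and only the edge `vw` is missing) has exactly two sides `A ∋ v`, `B ∋ w`.  If `|A| ≥ 2` then `{p, q, v}` separates `A - v` from `B` in `S`: `|A| = 2` or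
`|B| = 1`; the same for `B`.  `|A| = |B| = 2` would give 6 vertices.  So `A = {v}` (say), `N_S(v) = {p, q, w}`, `N_J(v) = {p, q}`, `p`, `q` are not adjacent by
hypothesis, and `J - {p, q, v}` = `B` is connected.  A vertex with three `J`-neighbours: at least 7 vertices, only `v`, `w` lose a
neighbour. -/
def SpecC1L : Prop := ∀ {α : Type} [Fintype α] [DecidableEq α] (S : SimpleGraph α) (v w : α), C1 S →
  7 ≤ (VS S).card → S.Adj v w →
  (∀ p q, (∀ x, S.Adj v x ↔ x = p ∨ x = q ∨ x = w) → ¬ S.Adj p q) →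
  (∀ p q, (∀ x, S.Adj w x ↔ x = p ∨ x = q ∨ x = v) → ¬ S.Adj p q) → S3S (delE S v w)

end DL
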