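import Pool.Agent.DL.K.Spec
import Pool.Agent.DL.EX.VRS

section
/-!
# MP_3ff0f8_gt, ALGEBRA HALF, module C1L: deletion of an edge in a graph of class C1
-/
open SimpleGraph Finset

namespace DL

namespace C1LM

variable {α : Type} [Fintype α] [DecidableEq α]

lemma adj_delE {S : SimpleGraph α} {v w x y : α} :
    (delE S v w).Adj x y ↔ S.Adj x y ∧ s(x, y) ≠ s(v, w) := by
  unfold delE
  rw [deleteEdges_adj]
  rfl

lemma delE_comm (S : SimpleGraph α) (v w : α) : delE S v w = delE S w v := by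
  unfold delE
  rw [Sym2.eq_swap]

lemma core {S : SimpleGraph α} {v w p q : α} {P Q : Finset α} (hC1 : C1 S) (hvw : S.Adj v w)
    (hsep : Sep (delE S v w) {p, q} P Q) (hv : v ∈ P) (hw : w ∈ Q) (hP : P.card ≤ 1)
    (htri : ∀ p q, (∀ x, S.Adj v x ↔ x = p ∨ x = q ∨ x = w) → ¬ S.Adj p q)
    (hVS : VS (delE S v w) = VS S) :
    ∃ v', (∀ x, (delE S v w).Adj v' x ↔ x = p ∨ x = q) ∧ ¬ (delE S v w).Adj p q ∧
      ConnOff (delE S v w) {p, q, v'} := by
  have hPv : ∀ x ∈ P, x = v := fun x hx => card_le_one.1 hP x hx v hv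
  have hwp : w ≠ p := by
    rintro rfl
    exact Finset.disjoint_left.1 hsep.2.2.1 (by simp) hw
  have hwq : w ≠ q := by
    rintro rfl
    exact Finset.disjoint_left.1 hsep.2.2.1 (by simp) hw
  have hvp : v ≠ p := by
    rintro rfl
    exact Finset.disjoint_left.1 hsep.2.1 (by simp) hv
  have hvq : v ≠ q := by
    rintro rfl
    exact Finset.disjoint_left.1 hsep.2.1 (by simp) hv
  -- the neighbours of `v`
  have hsub : ∀ x, S.Adj v x → x = p ∨ x = q ∨ x = w := by
    intro x hx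
    have hxV : x ∈ VS (delE S v w) := by rw [hVS]; exact right_mem_VS hx
    rcases hsep.mem_or hxV with h | h | h
    · simp only [mem_insert, mem_singleton] at h
      tauto
    · exact absurd (hPv x h) hx.ne.symm
    · right; right
      by_contra hxw
      exact hsep.2.2.2.2 v hv x h (adj_delE.2 ⟨hx, fun e => hxw (Sym2.congr_right.1 e)⟩)
  have hiff : ∀ x, S.Adj v x ↔ x = p ∨ x = q ∨ x = w := by
    have h1 : nbs S v ⊆ {p, q, w} := by
      intro x hx
      simp only [mem_insert, mem_singleton]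
      exact hsub x (mem_nbs.1 hx)
    have h2 : 3 ≤ (nbs S v).card := hC1.1.le_nbs (left_mem_VS hvw)
    have h3 : nbs S v = {p, q, w} := eq_of_subset_of_card_le h1 (le_trans card_le_three h2)
    intro x
    rw [← mem_nbs, h3]
    simp
  have hJ : ∀ x, (delE S v w).Adj v x ↔ x = p ∨ x = q := by
    intro x
    rw [adj_delE, hiff]
    constructor
    · rintro ⟨h | h | h, h2⟩
      · exact Or.inl h
      · exact Or.inr h
      · exact absurd (by rw [h]) h2
    · rintro (rfl | rfl)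
      · exact ⟨Or.inl rfl, fun e => hwp (Sym2.congr_right.1 e).symm⟩
      · exact ⟨Or.inr (Or.inl rfl), fun e => hwq (Sym2.congr_right.1 e).symm⟩
  refine ⟨v, hJ, fun h => htri p q hiff (adj_delE.1 h).1, ?_⟩
  intro a ha b hb haS hbS
  rw [hVS] at ha hb
  have hdel : del (delE S v w) {p, q, v} = del S {p, q, v} := by
    ext x y
    rw [del_adj, del_adj, adj_delE]
    constructor
    · rintro ⟨⟨h1, _⟩, h2⟩
      exact ⟨h1, h2⟩
    · rintro ⟨h1, h2, h3⟩
      refine ⟨⟨h1, fun e => ?_⟩, h2, h3⟩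
      rw [Sym2.eq_iff] at e
      rcases e with e | e
      · exact h2 (by rw [e.1]; simp)
      · exact h3 (by rw [e.2]; simp)
  rw [hdel]
  by_contra hno
  obtain ⟨P', Q', hs, haP, hbQ, -⟩ := exists_sep_of_not_reachable ha hb haS hbS hno
  have hvV : v ∈ VS S := left_mem_VS hvw
  have hvS : v ∈ ({p, q, v} : Finset α) ∩ VS S := mem_inter.2 ⟨by simp, hvV⟩
  have hcard : ((({p, q, v} : Finset α) ∩ VS S).erase v).card < 3 := by
    have : (({p, q, v} : Finset α) ∩ VS S).erase v ⊆ {p, q} := by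
      intro x hx
      simp only [mem_erase, mem_inter, mem_insert, mem_singleton] at hx ⊢
      tauto
    exact lt_of_le_of_lt ((card_le_card this).trans card_le_two) (by norm_num)
  have hkey : ∀ P' Q' : Finset α, Sep S (({p, q, v} : Finset α) ∩ VS S) P' Q' → P'.Nonempty →
      w ∉ P' → False := by
    intro P' Q' hs hne hwP'
    have h1 := hs.move hvS (by
      intro x hx hxv
      rcases (hiff x).1 hxv.symm with h | h | h
      · exact Finset.disjoint_left.1 hs.2.1 (mem_inter.2 ⟨by rw [h]; simp, hs.subP hx⟩) hx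
      · exact Finset.disjoint_left.1 hs.2.1 (mem_inter.2 ⟨by rw [h]; simp, hs.subP hx⟩) hx
      · exact hwP' (h ▸ hx))
    have h2 := hC1.1.le_of_sep h1 hne (insert_nonempty _ _)
    omega
  by_cases hwP : w ∈ P'
  · exact hkey Q' P' hs.symm ⟨b, hbQ⟩ fun h => Finset.disjoint_left.1 hs.2.2.2.1 hwP h
  · exact hkey P' Q' hs ⟨a, haP⟩ hwP

/-- the separation with `v` and `w` on different sides -/
lemma sides {S : SimpleGraph α} {v w p q : α} {P Q : Finset α} (hC1 : C1 S) (hvw : S.Adj v w)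
    (h7 : 7 ≤ (VS S).card) (hpq : p ≠ q)
    (hsep : Sep (delE S v w) {p, q} P Q) (hv : v ∈ P) (hw : w ∈ Q)
    (htri : ∀ p q, (∀ x, S.Adj v x ↔ x = p ∨ x = q ∨ x = w) → ¬ S.Adj p q)
    (htri' : ∀ p q, (∀ x, S.Adj w x ↔ x = p ∨ x = q ∨ x = v) → ¬ S.Adj p q)
    (hVS : VS (delE S v w) = VS S) :
    ∃ v', (∀ x, (delE S v w).Adj v' x ↔ x = p ∨ x = q) ∧ ¬ (delE S v w).Adj p q ∧
      ConnOff (delE S v w) {p, q, v'} := by
  -- a separation of `S` of order 3
  have hsepv : ∀ (v w : α) (P Q : Finset α), Sep (delE S v w) {p, q} P Q → v ∈ P →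
      VS (delE S v w) = VS S → (P.erase v).card ≤ 1 ∨ Q.card ≤ 1 := by
    intro v w P Q hs hv hVS
    have hvT : v ∉ ({p, q} : Finset α) := fun h => Finset.disjoint_left.1 hs.2.1 h hv
    have h1 : Sep S (insert v {p, q}) (P.erase v) Q := by
      obtain ⟨e1, e2, e3, e4, e5⟩ := hs
      refine ⟨?_, ?_, ?_, ?_, ?_⟩
      · rw [← hVS, ← e1]
        ext x
        simp only [mem_union, mem_insert, mem_erase, mem_singleton]
        by_cases hx : x = v
        · subst hx
          simp [hv]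
        · simp [hx]
      · rw [Finset.disjoint_left]
        intro x hx hx'
        rw [mem_insert] at hx
        rw [mem_erase] at hx'
        rcases hx with hx | hx
        · exact hx'.1 hx
        · exact Finset.disjoint_left.1 e2 hx hx'.2
      · rw [Finset.disjoint_left]
        intro x hx hx'
        rw [mem_insert] at hx
        rcases hx with rfl | hx
        · exact Finset.disjoint_left.1 e4 hv hx'
        · exact Finset.disjoint_left.1 e3 hx hx'
      · exact e4.mono_left (erase_subset _ _)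
      · intro x hx y hy hxy
        rw [mem_erase] at hx
        refine e5 x hx.2 y hy (adj_delE.2 ⟨hxy, fun e => ?_⟩)
        rw [Sym2.eq_iff] at e
        rcases e with e | e
        · exact hx.1 e.1
        · exact Finset.disjoint_left.1 e4 hv (e.2 ▸ hy)
    refine hC1.2 _ _ _ h1 ?_
    rw [card_insert_of_notMem hvT, card_pair hpq]
  have h1 := hsepv v w P Q hsep hv hVS
  have hsep' : Sep (delE S w v) {p, q} Q P := by
    rw [delE_comm]
    exact hsep.symm
  have h2 := hsepv w v Q P hsep' hw (by rw [delE_comm, hVS])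
  have hcard : 5 ≤ P.card + Q.card := by
    have h3 := hsep.1
    rw [hVS] at h3
    have h4 : (VS S).card ≤ 2 + P.card + Q.card := by
      rw [← h3]
      refine (card_union_le _ _).trans (Nat.add_le_add_right ((card_union_le _ _).trans
        (Nat.add_le_add_right card_le_two _)) _)
    omega
  rw [card_erase_of_mem hv] at h1
  rw [card_erase_of_mem hw] at h2
  by_cases hP : P.card ≤ 1
  · exact core hC1 hvw hsep hv hw hP htri hVS
  · have hQ : Q.card ≤ 1 := by omega
    have := core hC1 hvw.symm hsep' hw hv hQ htri' (by rw [delE_comm, hVS])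
    rwa [delE_comm] at this

end C1LM

open C1LM in
theorem specC1L : SpecC1L := by
  intro α _ _ S v w hC1 h7 hvw htri htri'
  have hVS : VS (delE S v w) = VS S :=
    VS_delE fun x hx => le_trans (by norm_num) (hC1.1.le_nbs hx)
  have hK2 : KConn 2 (delE S v w) := hC1.1.delE (by norm_num) v w
  refine ⟨hK2, ?_, ?_⟩
  · obtain ⟨c, hc, hcn⟩ := hC1.1.exists_notMem (S := {v, w}) (card_le_two.trans (by norm_num))
    simp only [mem_insert, mem_singleton, not_or] at hcn
    have h3 : 2 < (nbs S c).card := hC1.1.le_nbs hc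
    obtain ⟨x, hx, y, hy, z, hz, hxy, hxz, hyz⟩ := two_lt_card.1 h3
    have hadj : ∀ u, u ∈ nbs S c → (delE S v w).Adj c u := by
      intro u hu
      refine adj_delE.2 ⟨mem_nbs.1 hu, fun e => ?_⟩
      rw [Sym2.eq_iff] at e
      rcases e with e | e
      · exact hcn.1 e.1
      · exact hcn.2 e.1
    exact ⟨c, x, y, z, hxy, hxz, hyz, hadj x hx, hadj y hy, hadj z hz⟩
  · intro p q hpq
    by_cases hconn : ConnOff (delE S v w) {p, q}
    · exact Or.inl hconn
    right
    unfold ConnOff at hconn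
    push Not at hconn
    obtain ⟨a, ha, b, hb, haS, hbS, hno⟩ := hconn
    obtain ⟨P, Q, hs, haP, hbQ, -⟩ := exists_sep_of_not_reachable ha hb haS hbS hno
    have hT : ({p, q} : Finset α) ∩ VS (delE S v w) = {p, q} := by
      have h1 := hK2.le_of_sep hs ⟨a, haP⟩ ⟨b, hbQ⟩
      refine eq_of_subset_of_card_le inter_subset_left ?_
      rw [card_pair hpq]
      exact h1
    rw [hT] at hs
    -- `v` and `w` are on different sides
    have hsep : ¬ Sep S {p, q} P Q := by
      intro h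
      have := hC1.1.le_of_sep h ⟨a, haP⟩ ⟨b, hbQ⟩
      rw [card_pair hpq] at this
      omega
    have hside : (v ∈ P ∧ w ∈ Q) ∨ (v ∈ Q ∧ w ∈ P) := by
      by_contra hcon
      apply hsep
      obtain ⟨e1, e2, e3, e4, e5⟩ := hs
      refine ⟨by rw [← hVS]; exact e1, e2, e3, e4, fun x hx y hy hxy => ?_⟩
      refine e5 x hx y hy (adj_delE.2 ⟨hxy, fun e => hcon ?_⟩)
      rw [Sym2.eq_iff] at e
      rcases e with ⟨rfl, rfl⟩ | ⟨rfl, rfl⟩
      · exact Or.inl ⟨hx, hy⟩
      · exact Or.inr ⟨hy, hx⟩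
    rcases hside with ⟨h1, h2⟩ | ⟨h1, h2⟩
    · exact sides hC1 hvw h7 hpq hs h1 h2 htri htri' hVS
    · exact sides hC1 hvw h7 hpq hs.symm h1 h2 htri htri' hVS

end DL
end

section
set_option autoImplicit false
set_option linter.unusedSectionVars false

/-!
# KUR: elementary facts on `Kur`
-/

open SimpleGraph Finset

namespace DL

namespace KURM

variable {α : Type} [Fintype α] [DecidableEq α]

lemma pair2_add (l : α → α → α → α → ZMod 2) (z z' : Sym2 α → Sym2 α → ZMod 2) :
    pair2 l (fun e f => z e f + z' e f) = pair2 l z + pair2 l z' := by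
  simp only [pair2, mul_add, sum_add_distrib]

lemma pair2_add_left (l l' : α → α → α → α → ZMod 2) (z : Sym2 α → Sym2 α → ZMod 2) :
    pair2 (fun a b c d => l a b c d + l' a b c d) z = pair2 l z + pair2 l' z := by
  simp only [pair2, add_mul, sum_add_distrib]

lemma cohs_add (l l' : α → α → α → α → ZMod 2) (C : Finset (Sym2 α)) :
    cohs (fun a b c d => l a b c d + l' a b c d) C = cohs l C + cohs l' C := by
  simp only [cohs, add_mul, sum_add_distrib]

lemma kz (G : SimpleGraph α) : KZ G ↔ ∀ z, IsZ2 G z → Kur G z :=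
  ⟨fun h z hz l hl => h l hl z hz, fun h l hl z hz => h z hz l hl⟩

lemma add {G : SimpleGraph α} {z z' : Sym2 α → Sym2 α → ZMod 2} (h : Kur G z) (h' : Kur G z') :
    Kur G (fun e f => z e f + z' e f) := by
  intro l hl
  rw [pair2_add, h l hl, h' l hl, add_zero]

lemma mono {G G' : SimpleGraph α} {z : Sym2 α → Sym2 α → ZMod 2} (hG : G ≤ G') (h : Kur G z) :
    Kur G' z := by
  rintro l ⟨p, hp, hp0, hp1⟩
  exact h l ⟨p, hp, hp0, fun C hC => hp1 C (hC.mono hG)⟩

lemma zmono {G G' : SimpleGraph α} {z : Sym2 α → Sym2 α → ZMod 2} (hG : G ≤ G') (h : IsZ2 G z) :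
    IsZ2 G' z :=
  ⟨h.1, fun e f hef => ⟨edgeSet_mono hG (h.2.1 e f hef).1, edgeSet_mono hG (h.2.1 e f hef).2.1,
    (h.2.1 e f hef).2.2⟩, h.2.2⟩

lemma zadd {G : SimpleGraph α} {z z' : Sym2 α → Sym2 α → ZMod 2} (h : IsZ2 G z) (h' : IsZ2 G z') :
    IsZ2 G (fun e f => z e f + z' e f) := by
  refine ⟨fun e f => ?_, fun e f hef => ?_, fun e v hv => ?_⟩
  · simp only [h.1 e f, h'.1 e f]
  · by_cases h1 : z e f = 0
    · have h2 : z' e f ≠ 0 := by
        intro h2
        exact hef (by simp only [h1, h2, add_zero])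
      exact h'.2.1 e f h2
    · exact h.2.1 e f h1
  · rw [sum_add_distrib, h.2.2 e v hv, h'.2.2 e v hv, add_zero]

lemma del {G : SimpleGraph α} {z : Sym2 α → Sym2 α → ZMod 2} {a b : α} (h : IsZ2 G z)
    (h0 : ∀ f, z s(a, b) f = 0) : IsZ2 (delE G a b) z := by
  refine ⟨h.1, fun e f hef => ?_, h.2.2⟩
  obtain ⟨h1, h2, h3⟩ := h.2.1 e f hef
  refine ⟨?_, ?_, h3⟩
  · rw [delE, edgeSet_deleteEdges]
    refine ⟨h1, ?_⟩
    rintro rfl
    exact hef (h0 f)
  · rw [delE, edgeSet_deleteEdges]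
    refine ⟨h2, ?_⟩
    rintro rfl
    exact hef (by rw [h.1]; exact h0 e)

/-- an edge of `G` without vertex in `S` is an edge of `del G S` -/
lemma mem_del {G : SimpleGraph α} {S : Finset α} {f : Sym2 α} :
    f ∈ (DL.del G S).edgeSet ↔ f ∈ G.edgeSet ∧ ∀ v ∈ f, v ∉ S := by
  induction f using Sym2.ind with
  | _ x y =>
    simp only [mem_edgeSet, DL.del, Sym2.mem_iff, forall_eq_or_imp, forall_eq]

/-- entries with a common vertex vanish -/
lemma eq_zero_of_mem {G : SimpleGraph α} {z : Sym2 α → Sym2 α → ZMod 2} (h : IsZ2 G z) {e f : Sym2 α}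
    {v : α} (he : v ∈ e) (hf : v ∈ f) : z e f = 0 := by
  by_contra h1
  exact (h.2.1 e f h1).2.2 v ⟨he, hf⟩

lemma row_bdy {G : SimpleGraph α} {z : Sym2 α → Sym2 α → ZMod 2} (h : IsZ2 G z) (e : Sym2 α)
    (v : α) : bdy (z e) v = 0 := by
  by_cases hv : v ∈ e
  · exact sum_eq_zero fun f hf => eq_zero_of_mem h hv (mem_filter.1 hf).2
  · exact h.2.2 e v hv

lemma row {G : SimpleGraph α} {z : Sym2 α → Sym2 α → ZMod 2} (a b : α) (h : IsZ2 G z) :
    z s(a, b) ∈ Z1 (DL.del G {a, b}) := by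
  refine ⟨fun f hf => mem_del.2 ⟨(h.2.1 _ _ hf).2.1, fun v hv hv' => ?_⟩, row_bdy h _⟩
  refine (h.2.1 _ _ hf).2.2 v ⟨?_, hv⟩
  rw [mem_insert, mem_singleton] at hv'
  exact Sym2.mem_iff.2 hv'

lemma tor {G : SimpleGraph α} {t Z : Chain α} (P Q : Finset α) (ht : t ∈ Z1 G) (hZ : Z ∈ Z1 G)
    (hP : ∀ e v, t e ≠ 0 → v ∈ e → v ∈ P) (hQ : ∀ e v, Z e ≠ 0 → v ∈ e → v ∈ Q)
    (hPQ : Disjoint P Q) : IsZ2 G (fun e f => t e * Z f + Z e * t f) := by
  have key : ∀ e f, t e ≠ 0 → Z f ≠ 0 → e ∈ G.edgeSet ∧ f ∈ G.edgeSet ∧ Dj e f := by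
    intro e f he hf
    refine ⟨ht.1 e he, hZ.1 f hf, fun v hv => ?_⟩
    exact disjoint_left.1 hPQ (hP e v he hv.1) (hQ f v hf hv.2)
  refine ⟨fun e f => ?_, fun e f hef => ?_, fun e v _ => ?_⟩
  · simp only
    ring
  · by_cases h1 : t e * Z f = 0
    · have h2 : Z e * t f ≠ 0 := by
        intro h2
        exact hef (by simp only [h1, h2, add_zero])
      obtain ⟨h3, h4, h5⟩ := key f e (right_ne_zero_of_mul h2) (left_ne_zero_of_mul h2)
      exact ⟨h4, h3, fun v hv => h5 v ⟨hv.2, hv.1⟩⟩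
    · exact key e f (left_ne_zero_of_mul h1) (right_ne_zero_of_mul h1)
  · have h1 := ht.2 v
    have h2 := hZ.2 v
    simp only [bdy] at h1 h2
    rw [sum_add_distrib, ← mul_sum, ← mul_sum, h1, h2, mul_zero, mul_zero, add_zero]

end KURM

theorem specKUR : SpecKUR where
  kz := KURM.kz
  add := KURM.add
  mono := KURM.mono
  zmono := KURM.zmono
  zadd := KURM.zadd
  del := KURM.del
  row := KURM.row
  tor := KURM.tor

end DL
end

section
set_option autoImplicit false
set_option linter.unusedSectionVars false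

/-!
# K2G: 2-cycles which vanish on (edges at `a`) × (edges at `b`) are killed, if `KZ (contr G a b)`
-/

open SimpleGraph Finset

namespace DL

namespace K2GM

variable {α : Type} [Fintype α] [DecidableEq α] {G : SimpleGraph α} {a b : α}
  {z : Sym2 α → Sym2 α → ZMod 2}

/-- cubic polynomial plus coherence functions without the edge `ab`, with value `x` on `z` -/
def Gd (G : SimpleGraph α) (a b : α) (z : Sym2 α → Sym2 α → ZMod 2)
    (f : Finset (Sym2 α) → ZMod 2) (x : ZMod 2) : Prop :=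
  ∃ p : Chain α → ZMod 2, DegLE 3 p ∧ p 0 = 0 ∧ ∃ l : α → α → α → α → ZMod 2,
    (∀ s t u v, l s t u v ≠ 0 → s(s, t) ≠ s(a, b) ∧ s(u, v) ≠ s(a, b)) ∧
    (∀ C, IsCyc G C → f C = p (chi C) + cohs l C) ∧ pair2 l z = x

theorem gd_congr {f g : Finset (Sym2 α) → ZMod 2} {x y : ZMod 2} (hg : Gd G a b z g y)
    (h : ∀ C, IsCyc G C → f C = g C) (hxy : x = y) : Gd G a b z f x := by
  obtain ⟨p, hp, h0, l, hl, hl', hl''⟩ := hg
  exact ⟨p, hp, h0, l, hl, fun C hC => (h C hC).trans (hl' C hC), hl''.trans hxy.symm⟩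

theorem cohs_zero (C : Finset (Sym2 α)) : cohs (fun _ _ _ _ : α => (0 : ZMod 2)) C = 0 := by
  simp [cohs]

theorem pair2_zero (z : Sym2 α → Sym2 α → ZMod 2) :
    pair2 (fun _ _ _ _ : α => (0 : ZMod 2)) z = 0 := by
  simp [pair2]

theorem gd_poly {p : Chain α → ZMod 2} (hp : DegLE 3 p) (h0 : p 0 = 0) :
    Gd G a b z (fun C => p (chi C)) 0 :=
  ⟨p, hp, h0, fun _ _ _ _ => 0, fun _ _ _ _ h => absurd rfl h, fun C _ => by
    rw [cohs_zero, add_zero], pair2_zero z⟩

theorem gd_zero (hPOL : SpecPOL) : Gd G a b z (fun _ => 0) 0 :=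
  gd_poly (p := fun _ => 0) (hPOL.zero 3) rfl

theorem gd_add (hPOL : SpecPOL) {f g : Finset (Sym2 α) → ZMod 2} {x y : ZMod 2}
    (hf : Gd G a b z f x) (hg : Gd G a b z g y) : Gd G a b z (fun C => f C + g C) (x + y) := by
  obtain ⟨p, hp, h0, l, hl, hl', hl''⟩ := hf
  obtain ⟨q, hq, h0', m, hm, hm', hm''⟩ := hg
  refine ⟨fun c => p c + q c, hPOL.add hp hq, by simp [h0, h0'],
    fun s t u v => l s t u v + m s t u v, ?_, ?_, ?_⟩
  · intro s t u v h
    by_cases h1 : l s t u v = 0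
    · refine hm s t u v fun h2 => h ?_
      show l s t u v + m s t u v = 0
      rw [h1, h2, add_zero]
    · exact hl s t u v h1
  · intro C hC
    show f C + g C = (p (chi C) + q (chi C)) + _
    rw [hl' C hC, hm' C hC, KURM.cohs_add]
    ring
  · rw [KURM.pair2_add_left, hl'', hm'']

theorem gd_sum (hPOL : SpecPOL) {ι : Type} (s : Finset ι) (f : ι → Finset (Sym2 α) → ZMod 2)
    (x : ι → ZMod 2) (h : ∀ i ∈ s, Gd G a b z (f i) (x i)) :
    Gd G a b z (fun C => ∑ i ∈ s, f i C) (∑ i ∈ s, x i) := by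
  classical
  induction s using Finset.induction_on with
  | empty => simpa using gd_zero hPOL
  | insert i s hi ih =>
    have h1 := gd_add hPOL (h i (mem_insert_self i s))
      (ih fun j hj => h j (mem_insert_of_mem hj))
    refine gd_congr h1 (fun C _ => ?_) ?_
    · rw [sum_insert hi]
    · rw [sum_insert hi]

theorem gd_smul (hPOL : SpecPOL) (r : ZMod 2) {f : Finset (Sym2 α) → ZMod 2} {x : ZMod 2}
    (hf : Gd G a b z f x) : Gd G a b z (fun C => r * f C) (r * x) := by
  rcases zmod2_cases r with h | h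
  · subst h
    simpa using gd_zero hPOL
  · subst h
    simpa using hf

theorem sum_delta (s t u v : α) (F : α → α → α → α → ZMod 2) :
    ∑ a, ∑ b, ∑ c, ∑ d, (if a = s ∧ b = t ∧ c = u ∧ d = v then (1 : ZMod 2) else 0) * F a b c d =
      F s t u v := by
  rw [sum_eq_single s, sum_eq_single t, sum_eq_single u, sum_eq_single v]
  · simp
  · intro d _ hd
    simp [hd]
  · simp
  · intro c _ hc
    simp [hc]
  · simp
  · intro b _ hb
    simp [hb]
  · simp
  · intro a _ ha
    simp [ha]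
  · simp

theorem gd_coh (hPOL : SpecPOL) {s t u v : α} (h1 : s(s, t) ≠ s(a, b)) (h2 : s(u, v) ≠ s(a, b)) :
    Gd G a b z (fun C => coh s t u v C) (z s(s, t) s(u, v)) := by
  refine ⟨fun _ => 0, hPOL.zero 3, rfl,
    fun a b c d => if a = s ∧ b = t ∧ c = u ∧ d = v then 1 else 0, ?_, fun C _ => ?_, ?_⟩
  · intro a' b' c' d' h
    dsimp only at h
    split_ifs at h with h3
    · obtain ⟨rfl, rfl, rfl, rfl⟩ := h3
      exact ⟨h1, h2⟩
    · exact absurd rfl h
  · rw [cohs, zero_add, sum_delta s t u v (fun a b c d => coh a b c d C)]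
  · rw [pair2, sum_delta s t u v (fun a b c d => z s(a, b) s(c, d))]

theorem deg_coord (hPOL : SpecPOL) (e : Sym2 α) : DegLE 1 (fun c : Chain α => c e) :=
  hPOL.ofAdd fun _ _ => rfl

theorem gd_pair (hPOL : SpecPOL) (e f : Sym2 α) :
    Gd G a b z (fun C => chi C e * chi C f) 0 := by
  have h1 : DegLE 3 (fun c : Chain α => c e * c f) :=
    hPOL.mono (by norm_num : 1 + 1 ≤ 3) (hPOL.mul (deg_coord hPOL e) (deg_coord hPOL f))
  exact gd_poly (p := fun c => c e * c f) h1 (by simp)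

theorem pr_deg (hPOL : SpecPOL) {A : Set (Sym2 α)} {q : Chain α → ZMod 2} (hq : q ∈ PR A) :
    DegLE 2 q ∧ q 0 = 0 := by
  induction hq using Submodule.span_induction with
  | mem f hf =>
    obtain ⟨x, -, y, -, -, rfl⟩ := hf
    exact ⟨hPOL.mul (d := 1) (e := 1) (deg_coord hPOL x) (deg_coord hPOL y), by simp⟩
  | zero => exact ⟨hPOL.zero 2, rfl⟩
  | add f g _ _ hf hg => exact ⟨hPOL.add hf.1 hg.1, by simp [hf.2, hg.2]⟩
  | smul r f _ hf =>
    rcases zmod2_cases r with h | h
    · subst h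
      rw [zero_smul]
      exact ⟨hPOL.zero 2, rfl⟩
    · subst h
      rw [one_smul]
      exact hf

/-- the boundary of a row, as a sum over the vertices -/
theorem bdy_sum (c : Chain α) (v : α) : bdy c v = ∑ x, c s(v, x) := by
  classical
  rw [bdy_eq]
  symm
  refine sum_bij (fun x _ => s(v, x)) ?_ ?_ ?_ ?_
  · intro x _
    simp
  · intro x _ y _ h
    exact Sym2.congr_right.1 h
  · intro e he
    rw [mem_filter] at he
    exact ⟨Sym2.Mem.other he.2, mem_univ _, Sym2.other_spec he.2⟩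
  · intro x _
    rfl

/-- coherence functions with the edge `ab` in the first place -/
theorem gd_ab (hPOL : SpecPOL) (hVRW : SpecVRW) (hab : a ≠ b) (hz : IsZ2 G z) (c d : α) :
    Gd G a b z (fun C => coh a b c d C) (z s(a, b) s(c, d)) := by
  by_cases h : ∃ v, v ∈ s(a, b) ∧ v ∈ s(c, d)
  · have h0 : z s(a, b) s(c, d) = 0 := by
      obtain ⟨v, h1, h2⟩ := h
      exact KURM.eq_zero_of_mem hz h1 h2
    rcases coh_share h with h1 | h1
    · exact gd_congr (gd_zero hPOL) (fun C hC => h1 G C hC) h0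
    · exact gd_congr (gd_pair hPOL s(a, b) s(c, d)) (fun C hC => h1 G C hC) h0
  · push Not at h
    have hac : a ≠ c := fun e => h a (by simp) (by rw [e]; simp)
    have had : a ≠ d := fun e => h a (by simp) (by rw [e]; simp)
    by_cases hcd : c = d
    · refine gd_congr (gd_zero hPOL) (fun C hC => ?_) ?_
      · show coh a b c d C = 0
        refine coh_eq_zero_right fun h2 => hC.not_isDiag _ h2 ?_
        rw [hcd]
        simp
      · by_contra h1
        have h2 := (hz.2.1 _ _ h1).2.1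
        rw [mem_edgeSet] at h2
        exact h2.ne hcd
    · obtain ⟨q, hq, hq'⟩ := hVRW.vs2 a
      obtain ⟨hq2, hq0⟩ := pr_deg hPOL hq
      have h1 : Gd G a b z (fun C => ∑ x ∈ univ.erase b, coh a x c d C)
          (∑ x ∈ univ.erase b, z s(a, x) s(c, d)) := by
        refine gd_sum hPOL _ _ _ fun x hx => ?_
        refine gd_coh hPOL ?_ ?_
        · intro e
          rcases Sym2.eq_iff.1 e with ⟨_, e2⟩ | ⟨e1, _⟩
          · exact (mem_erase.1 hx).1 e2
          · exact hab e1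
        · intro e
          rcases Sym2.eq_iff.1 e with ⟨e1, _⟩ | ⟨_, e1⟩
          · exact hac e1.symm
          · exact had e1.symm
      have hdeg : DegLE 3 (fun c' : Chain α => c' s(c, d) * q c') :=
        hPOL.mul (d := 1) (e := 2) (deg_coord hPOL _) hq2
      have h2 : Gd G a b z (fun C => chi C s(c, d) * q (chi C)) 0 :=
        gd_poly (p := fun c' => c' s(c, d) * q c') hdeg (by simp)
      refine gd_congr (gd_add hPOL h1 h2) (fun C hC => ?_) ?_
      · have h3 := hVRW.vr hC a c d hac had hcd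
        rw [← add_sum_erase univ _ (mem_univ b)] at h3
        have h4 : chi C s(c, d) * q (chi C) = if s(c, d) ∈ C ∧ a ∈ vs C then 1 else 0 := by
          rw [hq' G C hC, chi_apply]
          by_cases e1 : s(c, d) ∈ C <;> by_cases e2 : a ∈ vs C <;> simp [e1, e2]
        show coh a b c d C = ∑ x ∈ univ.erase b, coh a x c d C + chi C s(c, d) * q (chi C)
        rw [h4, ← h3]
        have h5 := zmod2_add_self (∑ x ∈ univ.erase b, coh a x c d C)
        linear_combination -h5
      · have h3 : ∑ x, z s(c, d) s(a, x) = 0 := by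
          rw [← bdy_sum]
          exact KURM.row_bdy hz _ _
        rw [← add_sum_erase univ _ (mem_univ b)] at h3
        have h4 : ∑ x ∈ univ.erase b, z s(c, d) s(a, x) = ∑ x ∈ univ.erase b, z s(a, x) s(c, d) :=
          sum_congr rfl fun x _ => hz.1 _ _
        rw [h4, hz.1] at h3
        have h5 := zmod2_add_self (∑ x ∈ univ.erase b, z s(a, x) s(c, d))
        rw [add_zero]
        linear_combination h3 - h5

theorem gd_all (hPOL : SpecPOL) (hVRW : SpecVRW) (hab : a ≠ b) (hz : IsZ2 G z) (s t u v : α) :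
    Gd G a b z (fun C => coh s t u v C) (z s(s, t) s(u, v)) := by
  by_cases h1 : s(s, t) = s(a, b)
  · rw [h1]
    rcases Sym2.eq_iff.1 h1 with ⟨rfl, rfl⟩ | ⟨rfl, rfl⟩
    · exact gd_ab hPOL hVRW hab hz u v
    · refine gd_congr (gd_ab hPOL hVRW hab hz v u) (fun C hC => ?_) ?_
      · exact hC.coh_reverse t s v u
      · rw [Sym2.eq_swap (a := v)]
  · by_cases h2 : s(u, v) = s(a, b)
    · rw [h2]
      rcases Sym2.eq_iff.1 h2 with ⟨rfl, rfl⟩ | ⟨rfl, rfl⟩
      · refine gd_congr (gd_ab hPOL hVRW hab hz s t) (fun C hC => ?_) (hz.1 _ _)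
        exact (hC.coh_comm s t u v).symm
      · refine gd_congr (gd_ab hPOL hVRW hab hz t s) (fun C hC => ?_) ?_
        · show coh s t u v C = coh v u t s C
          rw [← hC.coh_comm s t u v]
          exact hC.coh_reverse v u t s
        · rw [hz.1, Sym2.eq_swap (a := t)]
    · exact gd_coh hPOL h1 h2

theorem gd_cohs (hPOL : SpecPOL) (hVRW : SpecVRW) (hab : a ≠ b) (hz : IsZ2 G z)
    (l : α → α → α → α → ZMod 2) : Gd G a b z (cohs l) (pair2 l z) :=
  gd_sum hPOL univ (fun s C => ∑ t, ∑ u, ∑ v, l s t u v * coh s t u v C)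
    (fun s => ∑ t, ∑ u, ∑ v, l s t u v * z s(s, t) s(u, v)) fun s _ =>
    gd_sum hPOL univ (fun t C => ∑ u, ∑ v, l s t u v * coh s t u v C)
      (fun t => ∑ u, ∑ v, l s t u v * z s(s, t) s(u, v)) fun t _ =>
      gd_sum hPOL univ (fun u C => ∑ v, l s t u v * coh s t u v C)
        (fun u => ∑ v, l s t u v * z s(s, t) s(u, v)) fun u _ =>
        gd_sum hPOL univ (fun v C => l s t u v * coh s t u v C)
          (fun v => l s t u v * z s(s, t) s(u, v)) fun v _ =>
          gd_smul hPOL _ (gd_all hPOL hVRW hab hz s t u v)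

/-- the terms with the edge `ab` can be removed -/
theorem norm (hPOL : SpecPOL) (hVRW : SpecVRW) (hab : a ≠ b) (hz : IsZ2 G z)
    (l : α → α → α → α → ZMod 2) (hl : InP3 G (cohs l)) :
    ∃ l' : α → α → α → α → ZMod 2,
      (∀ s t u v, l' s t u v ≠ 0 → s(s, t) ≠ s(a, b) ∧ s(u, v) ≠ s(a, b)) ∧
      InP3 G (cohs l') ∧ pair2 l' z = pair2 l z := by
  obtain ⟨p, hp, h0, l', hl', h1, h2⟩ := gd_cohs hPOL hVRW hab hz l
  obtain ⟨q, hq, hq0, hq1⟩ := hl
  refine ⟨l', hl', ⟨fun c => q c + p c, hPOL.add hq hp, by simp [h0, hq0], fun C hC => ?_⟩, h2⟩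
  have h3 := h1 C hC
  rw [hq1 C hC] at h3
  show cohs l' C = q (chi C) + p (chi C)
  have h4 := zmod2_add_self (p (chi C))
  linear_combination -h3 - h4

/-- the general form -/
theorem main (hPOL : SpecPOL) (hVRW : SpecVRW) (hab : a ≠ b)
    (h : ∀ l : α → α → α → α → ZMod 2,
      (∀ s t u v, l s t u v ≠ 0 → s(s, t) ≠ s(a, b) ∧ s(u, v) ≠ s(a, b)) →
      (∃ p : Chain α → ZMod 2, DegLE 3 p ∧ p 0 = 0 ∧ ∀ C, CycM G a b C → cohs l C = p (chi C)) →
      pair2 l z = 0) (hz : IsZ2 G z) : Kur G z := by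
  intro l hl
  obtain ⟨l', h1, ⟨p, hp, hp0, hp1⟩, h3⟩ := norm hPOL hVRW hab hz l hl
  rw [← h3]
  exact h l' h1 ⟨p, hp, hp0, fun C hC => hp1 C hC.1⟩

/-- no common neighbours: nothing is deleted -/
theorem sel_eq (h : NoCN G a b) (K : Finset α) : sel G a b K = G := by
  have h1 : {e | ∃ x, G.Adj a x ∧ G.Adj b x ∧ ((x ∈ K ∧ e = s(a, x)) ∨ (x ∉ K ∧ e = s(b, x)))} =
      (∅ : Set (Sym2 α)) := by
    ext e
    simp only [Set.mem_ofPred_eq, Set.mem_empty_iff_false, iff_false]
    rintro ⟨x, h1, h2, _⟩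
    exact h x ⟨h1, h2⟩
  unfold sel
  rw [h1]
  simp

end K2GM

theorem specK2G (hPOL : SpecPOL) (hVRW : SpecVRW) (hL2M : SpecL2M) (hK2M : SpecK2M) : SpecK2G := by
  intro α _ _ G a b hab hN hKZ hS z hz h0
  refine K2GM.main hPOL hVRW hab.ne (fun l hl hp => ?_) hz
  rcases hN with hN | hN
  · exact hL2M hab hKZ l hl hp ∅ z (by rw [K2GM.sel_eq hN]; exact hz) h0
  · exact hK2M hab hN hKZ hS l hl hp z hz h0

end DL
end

section
/-!
MP_3ff0f8_gt, K block, module KC0 (helper19): two contractions.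
-/
open SimpleGraph Finset

namespace DL.KC0M

set_option linter.unusedSectionVars false

variable {α : Type} [Fintype α] [DecidableEq α]

theorem mrg_of {c d v : α} (hv : v ≠ d) : mrg c d v = v := by simp [mrg, hv]

theorem mrg_eq_iff {c d b v : α} (hbc : b ≠ c) (hbd : b ≠ d) : mrg c d v = b ↔ v = b := by
  unfold mrg
  by_cases h : v = d
  · rw [if_pos h]
    constructor
    · intro h'; exact absurd h'.symm hbc
    · intro h'; exact absurd (h'.symm.trans h) hbd
  · rw [if_neg h]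

theorem mem_map_iff {c d b : α} (hbc : b ≠ c) (hbd : b ≠ d) (f : Sym2 α) :
    b ∈ f.map (mrg c d) ↔ b ∈ f := by
  rw [Sym2.mem_map]
  constructor
  · rintro ⟨v, hv, h⟩
    rw [mrg_eq_iff hbc hbd] at h
    exact h ▸ hv
  · intro h
    exact ⟨b, h, mrg_of hbd⟩

open Classical in
/-- the prescribed matrix -/
noncomputable def MM (a b c d : α) (z : Sym2 α → Sym2 α → ZMod 2) (x : α) : Chain α := fun e =>
  if x = b ∨ b ∉ e then 0 else
    ∑ x' ∈ univ.filter (fun x' => mrg c d x' = x),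
      ∑ f ∈ univ.filter (fun f : Sym2 α => f.map (mrg c d) = e), z s(a, x') f

theorem MM_ne_zero {a b c d : α} {z : Sym2 α → Sym2 α → ZMod 2} {x : α} {e : Sym2 α}
    (h : MM a b c d z x e ≠ 0) : x ≠ b ∧ b ∈ e ∧ ∃ x' f, mrg c d x' = x ∧ f.map (mrg c d) = e ∧
      z s(a, x') f ≠ 0 := by
  unfold MM at h
  split_ifs at h with h1
  · exact absurd rfl h
  · push Not at h1
    obtain ⟨x', hx', h2⟩ := exists_ne_zero_of_sum_ne_zero h
    obtain ⟨f, hf, h3⟩ := exists_ne_zero_of_sum_ne_zero h2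
    exact ⟨h1.1, h1.2, x', f, (mem_filter.1 hx').2, (mem_filter.1 hf).2, h3⟩

theorem bdy_nbr (c : Chain α) (v : α) : bdy c v = ∑ x, c s(v, x) := by
  unfold bdy
  symm
  refine sum_bij (fun y _ => s(v, y)) ?_ ?_ ?_ ?_
  · intro y _
    simp
  · intro y _ y' _ h
    rw [Sym2.eq_iff] at h
    rcases h with ⟨_, h⟩ | ⟨h1, h2⟩
    · exact h
    · exact h2.trans h1
  · intro e he
    rw [mem_filter] at he
    obtain ⟨y, rfl⟩ := Sym2.mem_iff_exists.1 he.2
    exact ⟨y, mem_univ _, rfl⟩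
  · intro y _
    rfl

theorem specKC0 (hKUR : SpecKUR) (hK2G : SpecK2G) (hMAT : SpecMAT) (hCTZ : SpecCTZ) : SpecKC0 := by
  classical
  intro α _ _ G a b c d hab hcd hac had hbc hbd hNab hNcd hx1 hx2 hK3 hS3 hconn hKab hKcd
  have hne : a ≠ b := hab.ne
  have hma : mrg c d a = a := mrg_of had
  have hmb : mrg c d b = b := mrg_of hbd
  have hHab : (contr G c d).Adj a b := ⟨had, hbd, hne, Or.inl hab⟩
  rw [hKUR.kz]
  intro z hz
  have hrow : ∀ e, z e ∈ Z1 G := CTZM.row hz
  -- an edge at `a` or `b` is not `cd`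
  have hea : ∀ e : Sym2 α, a ∈ e → e ≠ s(c, d) := by
    rintro e he rfl
    rw [Sym2.mem_iff] at he
    exact he.elim hac had
  have heb : ∀ e : Sym2 α, b ∈ e → e ≠ s(c, d) := by
    rintro e he rfl
    rw [Sym2.mem_iff] at he
    exact he.elim hbc hbd
  -- the matrix
  set M := MM a b c d z with hM
  have hM1 : ∀ x e, M x e ≠ 0 → (contr G c d).Adj a x ∧ x ≠ b ∧ e ∈ (contr G c d).edgeSet ∧
      b ∈ e ∧ a ∉ e ∧ x ∉ e := by
    intro x e h
    obtain ⟨hxb, hbe, x', f, hx', hf, hzf⟩ := MM_ne_zero h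
    obtain ⟨g1, g2, g3⟩ := hz.2.1 _ _ hzf
    have hbf : b ∈ f := by rwa [← hf, mem_map_iff hbc hbd] at hbe
    have h1 : (contr G c d).Adj a x := by
      have := CTZM.map_mem hcd g1 (hea _ (by simp))
      rw [Sym2.map_mk, hma, hx'] at this
      exact this
    have h2 : e ∈ (contr G c d).edgeSet := by
      rw [← hf]
      exact CTZM.map_mem hcd g2 (heb _ hbf)
    have haf : a ∉ f := fun h' => g3 a ⟨by simp, h'⟩
    have hae : a ∉ e := by
      rw [← hf, mem_map_iff hac had]
      exact haf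
    refine ⟨h1, hxb, h2, hbe, hae, ?_⟩
    intro hxe
    rw [← hf, Sym2.mem_map] at hxe
    obtain ⟨y', hy', hyx⟩ := hxe
    have hy'x : y' ≠ x' := fun h' => g3 x' ⟨by simp, h' ▸ hy'⟩
    have hy'b : y' ≠ b := by
      rintro rfl
      rw [hmb] at hyx
      exact hxb hyx.symm
    have hfe : f = s(b, y') := by
      obtain ⟨y'', rfl⟩ := Sym2.mem_iff_exists.1 hbf
      rw [Sym2.mem_iff] at hy'
      rcases hy' with h' | h'
      · exact absurd h' hy'b
      · rw [h']
    have hby : G.Adj b y' := by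
      rw [hfe] at g2
      exact g2
    have hax : G.Adj a x' := g1
    rw [← hx'] at hyx
    unfold mrg at hyx
    split_ifs at hyx with k1 k2 k2
    · exact hy'x (k1.trans k2.symm)
    · exact hx1 ⟨hyx ▸ hax, k1 ▸ hby⟩
    · exact hx2 ⟨k2 ▸ hax, hyx ▸ hby⟩
    · exact hy'x hyx
  have hM0 : ∀ x, M x ≠ 0 → (contr G c d).Adj a x ∧ x ≠ b := by
    intro x hx
    obtain ⟨e, he⟩ : ∃ e, M x e ≠ 0 := by
      by_contra hcon
      push Not at hcon
      exact hx (funext hcon)
    exact ⟨(hM1 x e he).1, (hM1 x e he).2.1⟩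
  have hM2 : ∀ x e, M x e ≠ 0 → e ∈ (contr G c d).edgeSet ∧ b ∈ e ∧ a ∉ e ∧ x ∉ e :=
    fun x e h => (hM1 x e h).2.2
  -- the sum over all edges over a set of images
  have hfib : ∀ (x' : α), x' ≠ b →
      ∑ e ∈ univ.filter (fun e : Sym2 α => b ∈ e), ∑ f ∈ univ.filter
        (fun f : Sym2 α => f.map (mrg c d) = e), z s(a, x') f = 0 := by
    intro x' hx'
    have h1 := (hrow s(a, x')).2 b
    rw [bdy_eq] at h1
    rw [← h1]
    rw [← sum_fiberwise_of_maps_to (s := univ.filter (fun f : Sym2 α => b ∈ f))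
      (t := univ.filter (fun e : Sym2 α => b ∈ e)) (g := fun f : Sym2 α => f.map (mrg c d))
      (f := fun f => z s(a, x') f)]
    · refine sum_congr rfl fun e he => ?_
      refine sum_congr ?_ fun _ _ => rfl
      ext f
      simp only [mem_filter, mem_univ, true_and] at he ⊢
      constructor
      · intro h
        refine ⟨?_, h⟩
        rw [← h, mem_map_iff hbc hbd] at he
        exact he
      · exact fun h => h.2
    · intro f hf
      simp only [mem_filter, mem_univ, true_and] at hf ⊢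
      rwa [mem_map_iff hbc hbd]
  have hrowM : ∀ x, ∑ e, M x e = 0 := by
    intro x
    by_cases hxb : x = b
    · refine sum_eq_zero fun e _ => ?_
      rw [hM, MM, if_pos (Or.inl hxb)]
    · have h1 : ∑ e, M x e = ∑ e ∈ univ.filter (fun e : Sym2 α => b ∈ e),
          ∑ x' ∈ univ.filter (fun x' => mrg c d x' = x),
            ∑ f ∈ univ.filter (fun f : Sym2 α => f.map (mrg c d) = e), z s(a, x') f := by
        rw [sum_filter]
        refine sum_congr rfl fun e _ => ?_
        rw [hM, MM]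
        by_cases he : b ∈ e
        · rw [if_neg (by push Not; exact ⟨hxb, he⟩), if_pos he]
        · rw [if_pos (Or.inr he), if_neg he]
      rw [h1, sum_comm]
      refine sum_eq_zero fun x' hx' => hfib x' ?_
      rintro rfl
      rw [mem_filter, hmb] at hx'
      exact hxb hx'.2.symm
  have hcolM : ∑ x, M x = 0 := by
    funext e
    rw [Finset.sum_apply, Pi.zero_apply]
    by_cases he : b ∈ e
    · have h1 : ∑ x, M x e = ∑ x' ∈ univ.filter (fun x' => x' ≠ b),
          ∑ f ∈ univ.filter (fun f : Sym2 α => f.map (mrg c d) = e), z s(a, x') f := by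
        rw [← sum_fiberwise_of_maps_to (s := univ.filter (fun x' => x' ≠ b))
          (t := (univ : Finset α)) (g := mrg c d) (fun _ _ => mem_univ _)]
        refine sum_congr rfl fun x _ => ?_
        rw [hM, MM]
        by_cases hxb : x = b
        · rw [if_pos (Or.inl hxb)]
          symm
          refine sum_eq_zero fun x' hx' => ?_
          simp only [mem_filter, mem_univ, true_and] at hx'
          rw [hxb, mrg_eq_iff hbc hbd] at hx'
          exact absurd hx'.2 hx'.1
        · rw [if_neg (by push Not; exact ⟨hxb, he⟩)]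
          refine sum_congr ?_ fun _ _ => rfl
          ext x'
          simp only [mem_filter, mem_univ, true_and]
          constructor
          · intro h
            refine ⟨?_, h⟩
            rintro rfl
            rw [hmb] at h
            exact hxb h.symm
          · exact fun h => h.2
      rw [h1, sum_comm]
      refine sum_eq_zero fun f hf => ?_
      have hbf : b ∈ f := by
        simp only [mem_filter, mem_univ, true_and] at hf
        rwa [← hf, mem_map_iff hbc hbd] at he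
      have h2 : ∑ x' ∈ univ.filter (fun x' => x' ≠ b), z s(a, x') f = ∑ x', z s(a, x') f := by
        rw [sum_filter]
        refine sum_congr rfl fun x' _ => ?_
        split_ifs with h
        · rfl
        · rw [not_not] at h
          subst h
          by_contra h'
          exact (hz.2.1 _ _ (Ne.symm h')).2.2 x' ⟨by simp, hbf⟩
      rw [h2]
      have h3 := (hrow f).2 a
      rw [bdy_nbr] at h3
      rw [← h3]
      exact sum_congr rfl fun x' _ => hz.1 _ _
    · refine sum_eq_zero fun x _ => ?_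
      rw [hM, MM, if_pos (Or.inr he)]
  obtain ⟨w, hw, hwM⟩ := hMAT hHab hK3 hS3 hconn M hM0 hM2 hrowM hcolM
  obtain ⟨z', hz', hz'w⟩ := hCTZ.up hcd hNcd w hw
  -- `z'` is killed
  have hk1 : Kur G z' := by
    refine hK2G hcd (Or.inl hNcd) hKcd (fun x h1 h2 => absurd ⟨h1, h2⟩ (hNcd x)) z' hz' ?_
    intro e f hce hdf hne1 hne2
    by_contra h
    obtain ⟨g1, g2, _⟩ := hz'.2.1 e f h
    rw [hz'w e g1 f g2 hne1 hne2] at h
    refine (hw.2.1 _ _ h).2.2 c ⟨?_, ?_⟩
    · rw [Sym2.mem_map]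
      exact ⟨c, hce, mrg_of hcd.ne⟩
    · rw [Sym2.mem_map]
      exact ⟨d, hdf, by simp [mrg]⟩
  -- the sum is killed
  have hk2 : Kur G (fun e f => z e f + z' e f) := by
    refine hK2G hab (Or.inl hNab) hKab (fun x h1 h2 => absurd ⟨h1, h2⟩ (hNab x)) _ (hKUR.zadd hz hz') ?_
    intro e f hae hbf hne1 hne2
    obtain ⟨x', rfl⟩ := Sym2.mem_iff_exists.1 hae
    obtain ⟨y', rfl⟩ := Sym2.mem_iff_exists.1 hbf
    by_cases hax : G.Adj a x'
    swap
    · have h1 : z s(a, x') s(b, y') = 0 := by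
        by_contra h
        exact hax (hz.2.1 _ _ h).1
      have h2 : z' s(a, x') s(b, y') = 0 := by
        by_contra h
        exact hax (hz'.2.1 _ _ h).1
      rw [h1, h2, add_zero]
    by_cases hby : G.Adj b y'
    swap
    · have h1 : z s(a, x') s(b, y') = 0 := by
        by_contra h
        exact hby (hz.2.1 _ _ h).2.1
      have h2 : z' s(a, x') s(b, y') = 0 := by
        by_contra h
        exact hby (hz'.2.1 _ _ h).2.1
      rw [h1, h2, add_zero]
    have hxb : x' ≠ b := fun h => hne1 (h ▸ rfl)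
    have hya : y' ≠ a := fun h => hne2 (by rw [h, Sym2.eq_swap])
    have hxb' : mrg c d x' ≠ b := by rwa [Ne, mrg_eq_iff hbc hbd]
    have hya' : mrg c d y' ≠ a := by rwa [Ne, mrg_eq_iff hac had]
    have e1 : s(a, x') ≠ s(c, d) := hea _ (by simp)
    have e2 : s(b, y') ≠ s(c, d) := heb _ (by simp)
    have hHax : (contr G c d).Adj a (mrg c d x') := by
      have := CTZM.map_mem hcd (show s(a, x') ∈ G.edgeSet from hax) e1
      rwa [Sym2.map_mk, hma] at this
    have hHby : (contr G c d).Adj b (mrg c d y') := by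
      have := CTZM.map_mem hcd (show s(b, y') ∈ G.edgeSet from hby) e2
      rwa [Sym2.map_mk, hmb] at this
    rw [hz'w _ hax _ hby e1 e2, Sym2.map_mk, Sym2.map_mk, hma, hmb,
      hwM _ _ hHax hxb' hHby hya', hM, MM, if_neg (by push Not; exact ⟨hxb', by simp⟩)]
    have h3 : ∑ x'' ∈ univ.filter (fun x'' => mrg c d x'' = mrg c d x'),
        ∑ f ∈ univ.filter (fun f : Sym2 α => f.map (mrg c d) = s(b, mrg c d y')), z s(a, x'') f =
          z s(a, x') s(b, y') := by
      rw [sum_eq_single x', sum_eq_single s(b, y')]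
      · intro f hf hne
        by_contra h
        obtain ⟨_, g2, _⟩ := hz.2.1 _ _ h
        simp only [mem_filter, mem_univ, true_and] at hf
        have hbf : b ∈ f := by
          rw [← mem_map_iff hbc hbd, hf]; simp
        refine hne (CTZM.map_inj hNcd g2 hby (heb _ hbf) e2 ?_)
        rw [hf, Sym2.map_mk, hmb]
      · intro h
        exact absurd (by simp [hmb]) h
      · intro x'' hx'' hne
        refine sum_eq_zero fun f _ => ?_
        by_contra h
        obtain ⟨g1, _, _⟩ := hz.2.1 _ _ h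
        simp only [mem_filter, mem_univ, true_and] at hx''
        have := CTZM.map_inj hNcd g1 hax (hea _ (by simp)) e1 (by
          rw [Sym2.map_mk, Sym2.map_mk, hx''])
        rw [Sym2.eq_iff] at this
        rcases this with ⟨_, h'⟩ | ⟨h1, h2⟩
        · exact hne h'
        · exact hne (h2.trans h1)
      · intro h
        exact absurd (by simp) h
    rw [h3, zmod2_add_self]
  have hfin := hKUR.add hk2 hk1
  have : (fun e f => (z e f + z' e f) + z' e f) = z := by
    funext e f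
    rw [add_assoc, zmod2_add_self, add_zero]
  rw [this] at hfin
  exact hfin

end DL.KC0M
end

section
/-!
# MP_3ff0f8_gt, ALGEBRA HALF, module KCD: contraction of `ab` and deletion of `cd`
-/
open SimpleGraph Finset

namespace DL

namespace KCDM

variable {α : Type} [Fintype α] [DecidableEq α]

omit [Fintype α] [DecidableEq α] in
lemma mem_edgeSet_del {G : SimpleGraph α} {S : Finset α} {e : Sym2 α} :
    e ∈ (del G S).edgeSet ↔ e ∈ G.edgeSet ∧ ∀ v ∈ e, v ∉ S := by
  induction e using Sym2.ind with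
  | _ x y =>
    constructor
    · intro h
      refine ⟨h.1, fun v hv => ?_⟩
      rcases Sym2.mem_iff.1 hv with rfl | rfl
      · exact h.2.1
      · exact h.2.2
    · rintro ⟨h, h'⟩
      exact ⟨h, h' x (Sym2.mem_mk_left x y), h' y (Sym2.mem_mk_right x y)⟩

omit [Fintype α] [DecidableEq α] in
lemma del_le' (G : SimpleGraph α) (S : Finset α) : del G S ≤ G := fun _ _ h => h.1

/-- a chain of `G - S` is zero on the edges meeting `S` -/
lemma zero_of_mem {G : SimpleGraph α} {S : Finset α} {c : Chain α} (hc : c ∈ Z1 (del G S))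
    {e : Sym2 α} {v : α} (hv : v ∈ e) (hS : v ∈ S) : c e = 0 := by
  by_contra h
  exact (mem_edgeSet_del.1 (hc.1 e h)).2 v hv hS

lemma mem_Z1_del {G : SimpleGraph α} {S : Finset α} {c : Chain α} (hc : c ∈ Z1 G)
    (h : ∀ e, ∀ v ∈ e, v ∈ S → c e = 0) : c ∈ Z1 (del G S) := by
  refine ⟨fun e he => mem_edgeSet_del.2 ⟨hc.1 e he, fun v hv hS => he (h e v hv hS)⟩, hc.2⟩

lemma isZ2_zero (G : SimpleGraph α) : IsZ2 G (fun _ _ => 0) :=
  ⟨fun _ _ => rfl, fun _ _ h => absurd rfl h, fun _ _ _ => Finset.sum_const_zero⟩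

lemma kur_zero (G : SimpleGraph α) : Kur G (fun _ _ => 0) := by
  intro l _
  simp [pair2]

lemma isZ2_sum (hKUR : SpecKUR) {G : SimpleGraph α} (S : Finset α)
    (τ : α → Sym2 α → Sym2 α → ZMod 2) (h : ∀ x ∈ S, IsZ2 G (τ x)) :
    IsZ2 G (fun e f => ∑ x ∈ S, τ x e f) := by
  induction S using Finset.induction_on with
  | empty => simpa using isZ2_zero G
  | insert x S hx ih =>
    have h1 := hKUR.zadd (h x (mem_insert_self _ _)) (ih fun y hy => h y (mem_insert_of_mem hy))
    have h2 : (fun e f => ∑ y ∈ insert x S, τ y e f) =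
        fun e f => τ x e f + ∑ y ∈ S, τ y e f := by
      funext e f
      rw [sum_insert hx]
    rw [h2]
    exact h1

lemma kur_sum (hKUR : SpecKUR) {G : SimpleGraph α} (S : Finset α)
    (τ : α → Sym2 α → Sym2 α → ZMod 2) (h : ∀ x ∈ S, Kur G (τ x)) :
    Kur G (fun e f => ∑ x ∈ S, τ x e f) := by
  induction S using Finset.induction_on with
  | empty => simpa using kur_zero G
  | insert x S hx ih =>
    have h1 := hKUR.add (h x (mem_insert_self _ _)) (ih fun y hy => h y (mem_insert_of_mem hy))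
    have h2 : (fun e f => ∑ y ∈ insert x S, τ y e f) =
        fun e f => τ x e f + ∑ y ∈ S, τ y e f := by
      funext e f
      rw [sum_insert hx]
    rw [h2]
    exact h1

/-- reduction: modulo killed cycles the row of `ab` can be made zero -/
lemma reduce (hKUR : SpecKUR) {G : SimpleGraph α} {a b : α} {z z' : Sym2 α → Sym2 α → ZMod 2}
    (hz : IsZ2 G z) (hz' : IsZ2 G z') (hk : Kur G z') (hrow : ∀ f, z s(a, b) f = z' s(a, b) f)
    (hKZ : KZ (delE G a b)) : Kur G z := by
  have h1 : IsZ2 (delE G a b) (fun e f => z e f + z' e f) :=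
    hKUR.del (hKUR.zadd hz hz') fun f => by rw [hrow, zmod2_add_self]
  have h2 : Kur G (fun e f => z e f + z' e f) :=
    hKUR.mono (deleteEdges_le _) ((hKUR.kz _).1 hKZ _ h1)
  have h3 := hKUR.add h2 hk
  have h4 : (fun e f => (z e f + z' e f) + z' e f) = z := by
    funext e f
    rw [add_assoc, zmod2_add_self, add_zero]
  rwa [h4] at h3

omit [Fintype α] in
lemma mem_map_mrg {a b v : α} {e : Sym2 α} (hva : v ≠ a) (h : v ∈ e.map (mrg a b)) : v ∈ e := by
  rw [Sym2.mem_map] at h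
  obtain ⟨u, hu, huv⟩ := h
  unfold mrg at huv
  split_ifs at huv with h1
  · exact absurd huv.symm hva
  · rwa [huv] at hu

/-- the projection of a chain which is zero at `v` is zero at `v` -/
lemma prj_zero {a b v : α} {c : Chain α} (hva : v ≠ a) (hc : ∀ e, v ∈ e → c e = 0) {e : Sym2 α}
    (he : v ∈ e) : prj a b c e = 0 := by
  unfold prj
  split_ifs with h
  · rfl
  · refine sum_eq_zero fun f hf => hc f ?_
    have h2 := (mem_filter.1 hf).2.2
    rw [← h2] at he
    exact mem_map_mrg hva he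

/-- the projection does not depend on the value at `ab` -/
lemma prj_congr {a b : α} {c c' : Chain α} (h : ∀ e, e ≠ s(a, b) → c e = c' e) :
    prj a b c = prj a b c' := by
  funext e
  unfold prj
  split_ifs with h1
  · rfl
  · exact sum_congr rfl fun f hf => h f (mem_filter.1 hf).2.1

end KCDM

open KCDM in
theorem specKCD (hKUR : SpecKUR) (hK2G : SpecK2G) (hLPE : SpecLPE) (hCTA : SpecCTA)
    (hCTZ : SpecCTZ) (hSEF : SpecSEF) : SpecKCD := by
  classical
  intro α _ _ G a b c d hab hcd hac had hbc hbd hKC hKZc hS3 hKZd hS3' hcV hdV hY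
  have hK : ∀ z, IsZ2 G z → (∀ e f, a ∈ e → b ∈ f → e ≠ s(a, b) → f ≠ s(a, b) → z e f = 0) →
      Kur G z := fun z hz h => hK2G hab (Or.inr hKC) hKZc hS3 z hz h
  rw [hKUR.kz]
  intro z hz
  have hrow : z s(c, d) ∈ Z1 (del G {c, d}) := hKUR.row c d hz
  have hrowG : z s(c, d) ∈ Z1 G := Z1_mono (del_le' _ _) hrow
  -- the common neighbours
  set S : Finset α := univ.filter fun x => G.Adj a x ∧ G.Adj b x ∧ z s(c, d) s(b, x) ≠ 0 with hS
  have hSm : ∀ x, x ∈ S ↔ G.Adj a x ∧ G.Adj b x ∧ z s(c, d) s(b, x) ≠ 0 := fun x => by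
    rw [hS, mem_filter]
    exact and_iff_right (mem_univ x)
  have hSc : ∀ x ∈ S, x ≠ c := by
    rintro x hx rfl
    exact ((hSm x).1 hx).2.2 (zero_of_mem hrow (Sym2.mem_mk_right b x) (by simp))
  have hSd : ∀ x ∈ S, x ≠ d := by
    rintro x hx rfl
    exact ((hSm x).1 hx).2.2 (zero_of_mem hrow (Sym2.mem_mk_right b x) (by simp))
  have hYx : ∀ x, ∃ Y : Chain α, x ∈ S → Y ∈ Z1 (del G {a, b, x}) ∧ Y s(c, d) = 1 := by
    intro x
    by_cases hx : x ∈ S
    · obtain ⟨h1, h2, -⟩ := (hSm x).1 hx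
      obtain ⟨Y, hY1, hY2⟩ := hY x h1 h2 (hSc x hx) (hSd x hx)
      exact ⟨Y, fun _ => ⟨hY1, hY2⟩⟩
    · exact ⟨0, fun h => absurd h hx⟩
  choose Y hY1 using hYx
  set t : α → Chain α := fun x => chi {s(a, x), s(b, x), s(a, b)} with ht
  have htv : ∀ x e, t x e ≠ 0 → e = s(a, x) ∨ e = s(b, x) ∨ e = s(a, b) := by
    intro x e he
    have h1 := chi_ne_zero.1 he
    simpa using h1
  have htZ : ∀ x ∈ S, t x ∈ Z1 G := fun x hx =>
    (hSEF.tri hab ((hSm x).1 hx).1 ((hSm x).1 hx).2.1).1.chi_mem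
  have htP : ∀ x e v, t x e ≠ 0 → v ∈ e → v ∈ ({a, b, x} : Finset α) := by
    intro x e v he hv
    rcases htv x e he with rfl | rfl | rfl <;> rcases Sym2.mem_iff.1 hv with rfl | rfl <;> simp
  have ht0 : ∀ x ∈ S, ∀ e v, v ∈ e → v = c ∨ v = d → t x e = 0 := by
    intro x hx e v hv hvc
    by_contra h
    have h1 := htP x e v h hv
    simp only [mem_insert, mem_singleton] at h1
    rcases hvc with rfl | rfl
    · rcases h1 with h1 | h1 | h1
      · exact hac h1.symm
      · exact hbc h1.symm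
      · exact hSc x hx h1.symm
    · rcases h1 with h1 | h1 | h1
      · exact had h1.symm
      · exact hbd h1.symm
      · exact hSd x hx h1.symm
  set τ : α → Sym2 α → Sym2 α → ZMod 2 := fun x e f => t x e * Y x f + Y x e * t x f with hτ
  have hτZ : ∀ x ∈ S, IsZ2 G (τ x) := by
    intro x hx
    refine hKUR.tor {a, b, x} {a, b, x}ᶜ (htZ x hx)
      (Z1_mono (del_le' _ _) (hY1 x hx).1) (htP x) (fun e v he hv => ?_)
      disjoint_compl_right
    rw [mem_compl]
    exact fun h => he (zero_of_mem (hY1 x hx).1 hv h)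
  have hτK : ∀ x ∈ S, Kur G (τ x) := by
    intro x hx
    refine hK _ (hτZ x hx) fun e f he hf _ _ => ?_
    have h1 : Y x f = 0 := zero_of_mem (hY1 x hx).1 hf (by simp)
    have h2 : Y x e = 0 := zero_of_mem (hY1 x hx).1 he (by simp)
    rw [hτ]
    simp only [h1, h2, mul_zero, zero_mul, add_zero]
  have hτr : ∀ x ∈ S, ∀ f, τ x s(c, d) f = t x f := by
    intro x hx f
    have h1 : t x s(c, d) = 0 := ht0 x hx _ c (Sym2.mem_mk_left c d) (Or.inl rfl)
    rw [hτ]
    simp only [h1, (hY1 x hx).2, zero_mul, zero_add, one_mul]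
  -- the corrected row
  set Z' : Chain α := z s(c, d) + ∑ x ∈ S, t x with hZ'
  have hZ'a : ∀ e, Z' e = z s(c, d) e + ∑ x ∈ S, t x e := fun e => by
    rw [hZ', Pi.add_apply, Finset.sum_apply]
  have hZ'G : Z' ∈ Z1 G := add_mem hrowG (sum_mem htZ)
  have hZ'0 : ∀ e v, v ∈ e → v = c ∨ v = d → Z' e = 0 := by
    intro e v hv hvc
    rw [hZ'a, zero_of_mem hrow hv (by simpa using hvc), zero_add]
    exact sum_eq_zero fun x hx => ht0 x hx e v hv hvc
  have hZ'b : ∀ x, G.Adj a x → G.Adj b x → Z' s(b, x) = 0 := by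
    intro x hax hbx
    rw [hZ'a]
    have h1 : ∀ y, t y s(b, x) = if x = y then 1 else 0 := by
      intro y
      rw [ht]
      simp only [chi_apply, mem_insert, mem_singleton, Sym2.eq_iff]
      refine if_congr ⟨?_, ?_⟩ rfl rfl
      · rintro ((⟨h, -⟩ | ⟨-, h⟩) | (⟨-, h⟩ | ⟨h, h'⟩) | (⟨h, -⟩ | ⟨-, h⟩))
        · exact absurd h.symm hab.ne
        · exact absurd h.symm hax.ne
        · exact h
        · exact h'.trans h
        · exact absurd h.symm hab.ne
        · exact absurd h.symm hax.ne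
      · rintro rfl
        simp
    simp only [h1, sum_ite_eq]
    by_cases hx : x ∈ S
    · rw [if_pos hx, zmod2_ne_zero.1 ((hSm x).1 hx).2.2]
      exact zmod2_add_self 1
    · rw [if_neg hx, add_zero]
      by_contra h
      exact hx ((hSm x).2 ⟨hax, hbx, h⟩)
  -- the graph without the edges `bx`
  set G' := sel G a b ∅ with hG'
  obtain ⟨hab', hNo, hcon⟩ := hSEF.adj (G := G) ∅ hab
  rw [← hG'] at hab' hNo hcon
  have hle : G' ≤ G := hSEF.le G a b ∅
  have hZ's : Z' ∈ Z1 G' := hSEF.z1 ∅ hab hZ'G (fun x hx => absurd hx (notMem_empty x))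
    fun x _ h1 h2 => hZ'b x h1 h2
  have hZ''H : prj a b Z' ∈ Z1 (contr G a b) := by
    rw [← hcon]
    exact hCTA.pz hab' Z' hZ's
  have hZ'' : prj a b Z' ∈ Z1 (del (contr G a b) {c, d}) := by
    refine mem_Z1_del hZ''H fun e v hv hvS => ?_
    have hv' : v = c ∨ v = d := by simpa using hvS
    refine prj_zero ?_ (fun e he => hZ'0 e v he hv') hv
    rcases hv' with rfl | rfl
    · exact hac.symm
    · exact had.symm
  have hcdH : (contr G a b).Adj c d := ⟨hbc.symm, hbd.symm, hcd.ne, Or.inl hcd⟩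
  obtain ⟨w, hw, hwr⟩ := hLPE.edge hcdH hS3' hcV hdV _ hZ''
  obtain ⟨z', hz', hzw⟩ := hCTZ.up hab' hNo w (by rw [hcon]; exact hw)
  have hz'G : IsZ2 G z' := hKUR.zmono hle hz'
  have hz'K : Kur G z' := by
    refine hK _ hz'G fun e f he hf hne hnf => ?_
    by_contra h
    obtain ⟨he', hf', -⟩ := hz'.2.1 e f h
    rw [hzw e he' f hf' hne hnf] at h
    obtain ⟨-, -, hD⟩ := hw.2.1 _ _ h
    refine hD a ⟨?_, ?_⟩
    · rw [Sym2.mem_map]
      exact ⟨a, he, by simp [mrg, hab.ne]⟩
    · rw [Sym2.mem_map]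
      exact ⟨b, hf, by simp [mrg]⟩
  -- the row of `z'`
  have hcdG' : s(c, d) ∈ G'.edgeSet := by
    have := (hSEF.off (G := G) (a := a) (b := b) ∅ c d hac.symm hbc.symm had.symm hbd.symm).2 hcd
    exact this
  have hcdne : s(c, d) ≠ s(a, b) := by
    intro h
    have h1 : a ∈ s(c, d) := by rw [h]; exact Sym2.mem_mk_left a b
    rcases Sym2.mem_iff.1 h1 with h1 | h1
    · exact hac h1
    · exact had h1
  have hmcd : s(c, d).map (mrg a b) = s(c, d) := by
    simp [mrg, hbc.symm, hbd.symm]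
  have hrow' : z' s(c, d) ∈ Z1 G' := Z1_mono (del_le' _ _) (hKUR.row c d hz')
  have hZ'f : ∀ f ∈ G'.edgeSet, f ≠ s(a, b) → Z' f = prj a b Z' (f.map (mrg a b)) := by
    intro f hf hne
    have h1 := congrFun (hCTA.lp hab' hNo Z' hZ's) f
    unfold lft at h1
    rw [if_neg hne, if_pos hf] at h1
    exact h1.symm
  have hne' : ∀ f, f ≠ s(a, b) → z' s(c, d) f = Z' f := by
    intro f hne
    by_cases hf : f ∈ G'.edgeSet
    · rw [hzw _ hcdG' f hf hcdne hne, hmcd, hwr, hZ'f f hf hne]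
    · have h1 : z' s(c, d) f = 0 := by
        by_contra h
        exact hf (hrow'.1 f h)
      have h2 : Z' f = 0 := by
        by_contra h
        exact hf (hZ's.1 f h)
      rw [h1, h2]
  have hrr : z' s(c, d) = Z' := by
    rw [← hCTA.lp hab' hNo _ hrow', ← hCTA.lp hab' hNo _ hZ's, prj_congr hne']
  -- end
  refine reduce hKUR hz (hKUR.zadd hz'G (isZ2_sum hKUR S τ hτZ))
    (hKUR.add hz'K (kur_sum hKUR S τ hτK)) (fun f => ?_) hKZd
  rw [hrr, hZ'a, sum_congr rfl fun x hx => hτr x hx f, add_assoc, zmod2_add_self, add_zero]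

end DL
end

section
/-!
MP_3ff0f8_gt, ALGEBRA HALF, K block, module KDD (helper6)
-/
open SimpleGraph Finset

namespace DL

/-- (K-DD) two adjacent edges can be deleted. -/
theorem specKDD (hKUR : SpecKUR) (hLPE : SpecLPE) : SpecKDD := by
  intro α _ _ G a b c hab hac hbc hKb hKc hS ha hb
  rw [hKUR.kz] at hKb hKc ⊢
  intro z hz
  have hne : s(a, b) ≠ s(a, c) := by
    intro h
    rcases Sym2.eq_iff.1 h with ⟨_, h1⟩ | ⟨h1, _⟩
    · exact hbc h1
    · exact hac.ne h1
  have hab' : (delE G a c).Adj a b := delE_adj.2 ⟨hab, hne⟩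
  have hZ : z s(a, b) ∈ Z1 (del (delE G a c) {a, b}) := by
    have h1 := hKUR.row a b hz
    refine ⟨fun e he => ?_, h1.2⟩
    have h2 := h1.1 e he
    induction e using Sym2.ind with
    | _ x y =>
      rw [mem_edgeSet, del_adj] at h2 ⊢
      refine ⟨delE_adj.2 ⟨h2.1, fun h3 => ?_⟩, h2.2⟩
      have hx : x ≠ a := fun h => h2.2.1 (by simp [h])
      have hy : y ≠ a := fun h => h2.2.2 (by simp [h])
      rcases Sym2.eq_iff.1 h3 with ⟨h4, _⟩ | ⟨_, h4⟩
      · exact hx h4
      · exact hy h4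
  obtain ⟨z', hz', hrow⟩ := hLPE.edge hab' hS ha hb _ hZ
  have hk' : Kur G z' := hKUR.mono (delE_le G a c) (hKc z' hz')
  have hz'' := hKUR.zadd hz (hKUR.zmono (delE_le G a c) hz')
  have hdel := hKUR.del (a := a) (b := b) hz'' (fun f => by
    show z s(a, b) f + z' s(a, b) f = 0
    rw [hrow f]
    exact zmod2_add_self _)
  have hk'' : Kur G (fun e f => z e f + z' e f) := hKUR.mono (delE_le G a b) (hKb _ hdel)
  have h := hKUR.add hk'' hk'
  have he : (fun e f => (fun e f => z e f + z' e f) e f + z' e f) = z := by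
    funext e f
    show z e f + z' e f + z' e f = z e f
    rw [add_assoc, zmod2_add_self, add_zero]
  rw [he] at h
  exact h

end DL
end

section
/-!
# MP_3ff0f8_gt, ALGEBRA HALF, module KST: the star lemma for degree at least 5
-/
open SimpleGraph Finset

namespace DL

namespace KSTM

variable {α : Type} [Fintype α] [DecidableEq α]

lemma del_delE (G : SimpleGraph α) (u v : α) (S : Finset α) (hu : u ∈ S) :
    del (delE G u v) S = del G S := by
  ext x y
  rw [del_adj, del_adj]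
  refine and_congr_left fun h => ?_
  unfold delE
  rw [deleteEdges_adj]
  refine and_iff_left_of_imp fun _ h1 => ?_
  have h2 : s(x, y) = s(u, v) := h1
  rw [Sym2.eq_iff] at h2
  rcases h2 with h2 | h2
  · exact h.1 (h2.1 ▸ hu)
  · exact h.2 (h2.2 ▸ hu)

lemma delE_adj' {G : SimpleGraph α} {u v w : α} (h : G.Adj u w) (hvw : w ≠ v) :
    (delE G u v).Adj u w := by
  unfold delE
  rw [deleteEdges_adj]
  refine ⟨h, fun h1 => ?_⟩
  have h2 : s(u, w) = s(u, v) := h1
  exact hvw (Sym2.congr_right.1 h2)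

/-- reduction: modulo killed cycles the row of `ab` can be made zero -/
lemma reduce (hKUR : SpecKUR) {G : SimpleGraph α} {a b : α} {z z' : Sym2 α → Sym2 α → ZMod 2}
    (hz : IsZ2 G z) (hz' : IsZ2 G z') (hk : Kur G z') (hrow : ∀ f, z s(a, b) f = z' s(a, b) f)
    (hKZ : KZ (delE G a b)) : Kur G z := by
  have h1 : IsZ2 (delE G a b) (fun e f => z e f + z' e f) :=
    hKUR.del (hKUR.zadd hz hz') fun f => by rw [hrow, zmod2_add_self]
  have h2 : Kur G (fun e f => z e f + z' e f) :=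
    hKUR.mono (deleteEdges_le _) ((hKUR.kz _).1 hKZ _ h1)
  have h3 := hKUR.add h2 hk
  have h4 : (fun e f => (z e f + z' e f) + z' e f) = z := by
    funext e f
    rw [add_assoc, zmod2_add_self, add_zero]
  rwa [h4] at h3

end KSTM

open KSTM in
theorem specKST (hKUR : SpecKUR) (hSM3 : SpecSM3) (hS3F : SpecS3F) (hLPE : SpecLPE) :
    SpecKST := by
  classical
  intro α _ _ G u hJ w hw hadj hK0 hK1
  rw [hKUR.kz]
  intro z hz
  have hne : ∀ i j, i ≠ j → w i ≠ w j := fun i j h h' => h (hw h')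
  have hrow : z s(u, w 0) ∈ Z1 (del G {u, w 0}) := hKUR.row u (w 0) hz
  have hle : ∀ x, del G {u, x} = del (del G {u}) {x} := fun x => by
    rw [del_del]; rfl
  have hrow' : z s(u, w 0) ∈ Z1 (del G {u}) := by
    rw [hle] at hrow
    exact Z1_mono (del_le _ _) hrow
  obtain ⟨c₂, h2, c₃, h3, c₄, h4, hsum⟩ := hSM3 (del G {u}) hJ (w 2) (w 3) (w 4)
    (hne _ _ (by decide)) (hne _ _ (by decide)) (hne _ _ (by decide)) _ hrow'
  rw [← hle] at h2 h3 h4
  set la : α → Chain α := fun x => if x = w 0 then z s(u, w 0) else if x = w 2 then c₂ else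
    if x = w 3 then c₃ else if x = w 4 then c₄ else 0 with hla
  have hla0 : la (w 0) = z s(u, w 0) := by simp [hla]
  have hla2 : la (w 2) = c₂ := by
    simp [hla, hne 2 0 (by decide)]
  have hla3 : la (w 3) = c₃ := by
    simp [hla, hne 3 0 (by decide), hne 3 2 (by decide)]
  have hla4 : la (w 4) = c₄ := by
    simp [hla, hne 4 0 (by decide), hne 4 2 (by decide), hne 4 3 (by decide)]
  have hlaz : ∀ x, x ≠ w 0 → x ≠ w 2 → x ≠ w 3 → x ≠ w 4 → la x = 0 := by
    intro x h0 h2 h3 h4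
    simp [hla, h0, h2, h3, h4]
  have hcase : ∀ x, x = w 0 ∨ x = w 2 ∨ x = w 3 ∨ x = w 4 ∨ la x = 0 := by
    intro x
    by_cases h0 : x = w 0
    · exact Or.inl h0
    by_cases h2 : x = w 2
    · exact Or.inr (Or.inl h2)
    by_cases h3 : x = w 3
    · exact Or.inr (Or.inr (Or.inl h3))
    by_cases h4 : x = w 4
    · exact Or.inr (Or.inr (Or.inr (Or.inl h4)))
    · exact Or.inr (Or.inr (Or.inr (Or.inr (hlaz x h0 h2 h3 h4))))
  have hdel : ∀ x, del (delE G u (w 1)) {u, x} = del G {u, x} := fun x =>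
    del_delE G u (w 1) _ (by simp)
  have hdel' : del (delE G u (w 1)) {u} = del G {u} := del_delE G u (w 1) _ (by simp)
  obtain ⟨z', hz', hzrow⟩ := hLPE.star (G := delE G u (w 1)) (u := u)
    (by rw [hdel']; exact hS3F.k3 hJ) la (by
      intro x
      rw [hdel]
      rcases hcase x with rfl | rfl | rfl | rfl | h
      · rw [hla0]; exact hrow
      · rw [hla2]; exact h2
      · rw [hla3]; exact h3
      · rw [hla4]; exact h4
      · rw [h]; exact Submodule.zero_mem _) (by
      intro x hx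
      rw [hdel']
      rcases hcase x with rfl | rfl | rfl | rfl | h
      · exact ⟨delE_adj' (hadj 0).1 (hne _ _ (by decide)), (hadj 0).2⟩
      · exact ⟨delE_adj' (hadj 2).1 (hne _ _ (by decide)), (hadj 2).2⟩
      · exact ⟨delE_adj' (hadj 3).1 (hne _ _ (by decide)), (hadj 3).2⟩
      · exact ⟨delE_adj' (hadj 4).1 (hne _ _ (by decide)), (hadj 4).2⟩
      · exact absurd h hx) (by
      have h5 : ∑ x, la x = ∑ x ∈ ({w 0, w 2, w 3, w 4} : Finset α), la x := by
        symm
        apply Finset.sum_subset (subset_univ _)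
        intro x _ hx
        simp only [mem_insert, mem_singleton, not_or] at hx
        exact hlaz x hx.1 hx.2.1 hx.2.2.1 hx.2.2.2
      rw [h5, Finset.sum_insert, Finset.sum_insert, Finset.sum_insert, Finset.sum_singleton, hla0,
        hla2, hla3, hla4, hsum]
      · have h6 : c₂ + c₃ + c₄ + (c₂ + (c₃ + c₄)) = (c₂ + c₃ + c₄) + (c₂ + c₃ + c₄) := by abel
        rw [h6, chain_add_self]
      · simpa using hne 3 4 (by decide)
      · simp [hne 2 3 (by decide), hne 2 4 (by decide)]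
      · simp [hne 0 2 (by decide), hne 0 3 (by decide), hne 0 4 (by decide)])
  have hk' : Kur G z' := hKUR.mono (deleteEdges_le _) ((hKUR.kz _).1 hK1 _ hz')
  refine reduce hKUR hz (hKUR.zmono (deleteEdges_le _) hz') hk' (fun f => ?_) hK0
  rw [hzrow (w 0) f (delE_adj' (hadj 0).1 (hne _ _ (by decide))), hla0]

end DL
end

section
/-!
# MP_3ff0f8_gt, ALGEBRA HALF, module KS4: the star lemma for degree 4
-/
open SimpleGraph Finset

namespace DL

namespace KS4M

variable {α : Type} [Fintype α] [DecidableEq α]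

/-- `LPE.star` for an indexed family of neighbours -/
lemma star_fin (hLPE : SpecLPE) {G : SimpleGraph α} {u : α} (hS : S3S (del G {u})) {n : ℕ}
    {w : Fin n → α} (hw : Function.Injective w) (γ : Fin n → Chain α)
    (h1 : ∀ i, γ i ∈ Z1 (del G {u, w i}))
    (h2 : ∀ i, γ i ≠ 0 → G.Adj u (w i) ∧ w i ∈ VS (del G {u})) (h3 : ∑ i, γ i = 0) :
    ∃ z, IsZ2 G z ∧ ∀ i f, G.Adj u (w i) → z s(u, w i) f = γ i f := by
  classical
  set la : α → Chain α := fun x => ∑ i, if x = w i then γ i else 0 with hla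
  have hlaw : ∀ i, la (w i) = γ i := by
    intro i
    simp only [hla]
    rw [Finset.sum_eq_single i]
    · rw [if_pos rfl]
    · intro j _ hj
      rw [if_neg fun h => hj (hw h).symm]
    · intro h
      exact absurd (mem_univ _) h
  have hla0 : ∀ x, (∀ i, x ≠ w i) → la x = 0 := by
    intro x hx
    simp only [hla]
    exact sum_eq_zero fun i _ => if_neg (hx i)
  have hcase : ∀ x, (∃ i, x = w i) ∨ la x = 0 := by
    intro x
    by_cases h : ∃ i, x = w i
    · exact Or.inl h
    · exact Or.inr (hla0 x fun i hi => h ⟨i, hi⟩)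
  obtain ⟨z, hz, hzr⟩ := hLPE.star hS la (by
    intro x
    rcases hcase x with ⟨i, rfl⟩ | h
    · rw [hlaw]; exact h1 i
    · rw [h]; exact Submodule.zero_mem _) (by
    intro x hx
    rcases hcase x with ⟨i, rfl⟩ | h
    · rw [hlaw] at hx; exact h2 i hx
    · exact absurd h hx) (by
    rw [← h3]
    simp only [hla]
    rw [Finset.sum_comm]
    refine sum_congr rfl fun i _ => ?_
    rw [Finset.sum_ite_eq' univ (w i)]
    simp)
  refine ⟨z, hz, fun i f hi => ?_⟩
  rw [hzr (w i) f hi, hlaw]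

end KS4M

open KSTM KS4M in
theorem specKS4 (hKUR : SpecKUR) (hSM4 : SpecSM4) (hS3F : SpecS3F) (hLPE : SpecLPE) :
    SpecKS4 := by
  classical
  intro α _ _ G u hJ w hw hadj hwV hr hK
  rw [hKUR.kz]
  intro z hz
  have hle : ∀ x, del G {u, x} = del (del G {u}) {x} := fun x => by
    rw [del_del]; rfl
  have hrow : z s(u, w 0) ∈ Z1 (del (del G {u}) {w 0}) := by
    rw [← hle]
    exact hKUR.row u (w 0) hz
  obtain ⟨r, hrV, hru, hrw⟩ := hr
  have hrJ : r ∈ VS (del G {u}) := by
    obtain ⟨x, hx⟩ := mem_VS.1 hrV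
    refine mem_VS.2 ⟨x, hx, by simpa using hru, ?_⟩
    rw [mem_singleton]
    rintro rfl
    obtain ⟨i, hi⟩ := (hadj r).1 hx.symm
    exact hrw i hi
  obtain ⟨ν, hν, hν0, hsum, hβ⟩ := hSM4 (del G {u}) hJ w hw hwV ⟨r, hrJ, hrw⟩ _ hrow
  have key : ∀ p : Fin 4, p ≠ 0 → ∃ z', IsZ2 G z' ∧ Kur G z' ∧ ∀ f, z' s(u, w 0) f = ν p f := by
    intro p hp
    obtain ⟨β, hβ0, hβp, hβZ, hνp⟩ := hβ p hp
    have hdel : ∀ x, del (delE G u (w p)) {u, x} = del G {u, x} := fun x =>
      del_delE G u (w p) _ (by simp)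
    have hdel' : del (delE G u (w p)) {u} = del G {u} := del_delE G u (w p) _ (by simp)
    have hA : ∀ i, i ≠ p → (delE G u (w p)).Adj u (w i) := fun i hi =>
      delE_adj' ((hadj (w i)).2 ⟨i, rfl⟩) fun h => hi (hw h)
    obtain ⟨z', hz', hzr⟩ := star_fin hLPE (G := delE G u (w p)) (u := u)
      (by rw [hdel']; exact hS3F.k3 hJ) hw (fun i => if i = 0 then ν p else β i) (by
        intro i
        rw [hdel, hle]
        by_cases hi : i = 0
        · subst hi
          rw [if_pos rfl]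
          exact hν p
        · rw [if_neg hi]
          exact hβZ i) (by
        intro i hi
        rw [hdel']
        refine ⟨hA i ?_, hwV i⟩
        rintro rfl
        rw [if_neg hp] at hi
        exact hi hβp) (by
        rw [Fin.sum_univ_four]
        simp only [Fin.isValue, if_true, show (1 : Fin 4) ≠ 0 by decide,
          show (2 : Fin 4) ≠ 0 by decide, show (3 : Fin 4) ≠ 0 by decide, if_false]
        rw [hνp]
        have h6 : β 1 + β 2 + β 3 + β 1 + β 2 + β 3 = (β 1 + β 2 + β 3) + (β 1 + β 2 + β 3) := by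
          abel
        rw [h6, chain_add_self])
    refine ⟨z', hKUR.zmono (deleteEdges_le _) hz',
      hKUR.mono (deleteEdges_le _) ((hKUR.kz _).1 (hK p) _ hz'), fun f => ?_⟩
    rw [hzr 0 f (hA 0 hp.symm)]
    simp
  obtain ⟨z₁, h1, k1, r1⟩ := key 1 (by decide)
  obtain ⟨z₂, h2, k2, r2⟩ := key 2 (by decide)
  obtain ⟨z₃, h3, k3, r3⟩ := key 3 (by decide)
  refine reduce hKUR hz (hKUR.zadd (hKUR.zadd h1 h2) h3) (hKUR.add (hKUR.add k1 k2) k3)
    (fun f => ?_) (hK 0)
  rw [r1, r2, r3]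
  exact congrFun hsum f

end DL
end

section
set_option autoImplicit false
set_option linter.unusedSectionVars false

/-!
# KSU: subdivision of an edge
-/

open SimpleGraph Finset

namespace DL

namespace KSUM

variable {α : Type} [Fintype α] [DecidableEq α]

theorem zero {J : SimpleGraph α} {v p q : α} (hpq : p ≠ q) (hv : ∀ w, J.Adj v w ↔ w = p ∨ w = q)
    {z : Sym2 α → Sym2 α → ZMod 2} (hz : IsZ2 J z) (e f : Sym2 α) (hpe : p ∈ e) (hvf : v ∈ f)
    (hf : f ≠ s(p, v)) : z e f = 0 := by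
  by_contra h0
  obtain ⟨w, rfl⟩ := Sym2.mem_iff_exists.1 hvf
  obtain ⟨h1, h2, h3⟩ := hz.2.1 _ _ h0
  rw [mem_edgeSet, hv] at h2
  rcases h2 with rfl | rfl
  · exact hf Sym2.eq_swap
  · have h4 : ∑ x, z e s(v, x) = 0 := by
      rw [← K2GM.bdy_sum]
      exact KURM.row_bdy hz _ _
    rw [sum_eq_single w] at h4
    · exact h0 h4
    · intro x _ hx
      by_contra h5
      obtain ⟨-, h6, h7⟩ := hz.2.1 _ _ h5
      rw [mem_edgeSet, hv] at h6
      rcases h6 with rfl | rfl
      · exact h7 x ⟨hpe, Sym2.mem_mk_right _ _⟩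
      · exact hx rfl
    · intro h
      exact absurd (mem_univ _) h

end KSUM

theorem specKSU (hK2G : SpecK2G) : SpecKSU := by
  intro α _ _ J v p q hpq hv hJ hKZ
  rw [KURM.kz]
  intro z hz
  have hpv : J.Adj p v := ((hv p).2 (Or.inl rfl)).symm
  have hN : NoCN J p v := by
    rintro x ⟨h1, h2⟩
    rcases (hv x).1 h2 with rfl | rfl
    · exact h1.ne rfl
    · exact hJ h1
  refine hK2G hpv (Or.inl hN) hKZ (fun x h1 h2 => absurd ⟨h1, h2⟩ (hN x)) z hz ?_
  intro e f h1 h2 _ h4
  exact KSUM.zero hpq hv hz e f h1 h2 h4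

end DL
end

section
/-!
MP_3ff0f8_gt, K block, module MAT (helper19): prescribing a 2-cycle on the pairs of edges at `a`
and at `b`.
-/
open SimpleGraph Finset

namespace DL.MATM

set_option linter.unusedSectionVars false

variable {α : Type} [Fintype α] [DecidableEq α]

theorem bdy_sum {ι : Type} (s : Finset ι) (f : ι → Chain α) (v : α) :
    bdy (∑ i ∈ s, f i) v = ∑ i ∈ s, bdy (f i) v := by
  classical
  induction s using Finset.induction_on with
  | empty => simp
  | insert i s hi ih => rw [sum_insert hi, sum_insert hi, bdy_add, ih]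

/-- a chain on edges at `b` -/
theorem star_sum {b : α} {m : Chain α} (hm : ∀ e, m e ≠ 0 → b ∈ e) :
    ∑ e, m e = ∑ y, m s(b, y) := by
  have h1 : ∑ e, m e = ∑ e ∈ univ.filter (fun e => b ∈ e), m e := by
    rw [sum_filter]
    refine sum_congr rfl fun e _ => ?_
    split_ifs with h
    · rfl
    · by_contra h'
      exact h (hm e h')
  rw [h1]
  symm
  refine sum_bij (fun y _ => s(b, y)) ?_ ?_ ?_ ?_
  · intro y _
    simp
  · intro y _ y' _ h
    rw [Sym2.eq_iff] at h
    rcases h with ⟨_, h⟩ | ⟨h1, h2⟩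
    · exact h
    · exact h2.trans h1
  · intro e he
    rw [mem_filter] at he
    obtain ⟨y, rfl⟩ := Sym2.mem_iff_exists.1 he.2
    exact ⟨y, mem_univ _, rfl⟩
  · intro y _
    rfl

theorem star_bdy {b : α} {m : Chain α} (hm : ∀ e, m e ≠ 0 → b ∈ e) {v : α} (hv : v ≠ b) :
    bdy m v = m s(b, v) := by
  rw [bdy_eq_sum_ite, sum_eq_single s(b, v)]
  · simp
  · intro e _ he
    split_ifs with h
    · by_contra h'
      obtain ⟨y, rfl⟩ := Sym2.mem_iff_exists.1 (hm e h')
      rw [Sym2.mem_iff] at h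
      rcases h with h | h
      · exact hv h
      · exact he (h ▸ rfl)
    · rfl
  · simp

theorem star_bdy_self {b : α} {m : Chain α} (hm : ∀ e, m e ≠ 0 → b ∈ e) :
    bdy m b = ∑ e, m e := by
  rw [bdy_eq_sum_ite]
  refine sum_congr rfl fun e _ => ?_
  split_ifs with h
  · rfl
  · by_contra h'
    exact h (hm e (fun h0 => h' h0.symm))

/-- completing a star to a cycle -/
theorem complete {H : SimpleGraph α} {b : α} {S : Finset α} (hb : b ∈ S) {m : Chain α}
    (hm : ∀ e, m e ≠ 0 → b ∈ e) (hsum : ∑ e, m e = 0)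
    (hS : ∀ y, m s(b, y) ≠ 0 → y ∉ S ∧ y ∈ VS H) (hconn : ConnOff H S) (hm0 : m s(b, b) = 0) :
    ∃ c : Chain α, (∀ e, c e ≠ 0 → e ∈ (del H S).edgeSet) ∧ (∀ v, bdy (m + c) v = 0) ∧
      (m = 0 → c = 0) := by
  classical
  by_cases hz : m = 0
  · exact ⟨0, fun e he => absurd rfl he, fun v => by rw [hz]; simp, fun _ => rfl⟩
  -- a vertex of the star
  obtain ⟨y₀, hy₀⟩ : ∃ y, m s(b, y) ≠ 0 := by
    by_contra hcon
    push Not at hcon
    apply hz
    funext e
    by_contra h
    obtain ⟨y, rfl⟩ := Sym2.mem_iff_exists.1 (hm e h)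
    exact h (hcon y)
  have hP : ∀ y, ∃ P, m s(b, y) ≠ 0 → IsPth (del H S) y y₀ P := by
    intro y
    by_cases h : m s(b, y) ≠ 0
    · obtain ⟨P, hP⟩ := exists_isPth (hconn y (hS y h).2 y₀ (hS y₀ hy₀).2 (hS y h).1 (hS y₀ hy₀).1)
      exact ⟨P, fun _ => hP⟩
    · exact ⟨∅, fun h' => absurd h' h⟩
  choose P hP using hP
  refine ⟨∑ y, m s(b, y) • chi (P y), ?_, ?_, fun h => absurd h hz⟩
  · intro e he
    rw [Finset.sum_apply] at he
    obtain ⟨y, _, hy⟩ := exists_ne_zero_of_sum_ne_zero he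
    rw [Pi.smul_apply, smul_eq_mul] at hy
    have h1 : m s(b, y) ≠ 0 := left_ne_zero_of_mul hy
    have h2 : chi (P y) e ≠ 0 := right_ne_zero_of_mul hy
    exact (hP y h1).subset e (chi_ne_zero.1 h2)
  · intro v
    have h1 : bdy (∑ y, m s(b, y) • chi (P y)) v =
        ∑ y, ((if v = y then m s(b, y) else 0) + m s(b, y) * if v = y₀ then 1 else 0) := by
      rw [bdy_sum]
      refine sum_congr rfl fun y _ => ?_
      rw [bdy_smul]
      by_cases hy : m s(b, y) = 0
      · rw [hy]; simp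
      · rw [(hP y hy).bdy_chi, mul_add]
        congr 1
        split_ifs <;> simp
    rw [bdy_add, h1, sum_add_distrib, ← sum_mul, ← star_sum hm, hsum, zero_mul, add_zero,
      sum_ite_eq univ v]
    simp only [mem_univ, if_true]
    by_cases hv : v = b
    · subst hv
      rw [star_bdy_self hm, hsum, hm0, add_zero]
    · rw [star_bdy hm hv, zmod2_add_self]

theorem specMAT (hLPE : SpecLPE) : SpecMAT := by
  classical
  intro α _ _ H a b hab hH hS3 hconn M hM0 hM hrow hcol
  have hne : a ≠ b := hab.ne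
  have hVSa : VS (del H {a}) = VS H \ {a} := hH.VS_del (S := {a}) (by simp)
  -- the completions
  have key : ∀ x, ∃ c : Chain α, (∀ e, c e ≠ 0 → e ∈ (del H {a, b, x}).edgeSet) ∧
      (∀ v, bdy (M x + c) v = 0) ∧ (M x = 0 → c = 0) := by
    intro x
    by_cases hx : M x = 0
    · refine ⟨0, fun e he => absurd rfl he, fun v => ?_, fun _ => rfl⟩
      rw [hx]; simp
    · obtain ⟨hax, hxb⟩ := hM0 x hx
      refine complete (b := b) (S := {a, b, x}) (by simp) (fun e he => (hM x e he).2.1) (hrow x)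
        ?_ (hconn x hax hxb) ?_
      · intro y hy
        obtain ⟨h1, _, h3, h4⟩ := hM x _ hy
        have hby : H.Adj b y := h1
        simp only [Sym2.mem_iff, not_or] at h3 h4
        refine ⟨?_, right_mem_VS hby⟩
        simp only [mem_insert, mem_singleton, not_or]
        exact ⟨Ne.symm h3.2, hby.ne', Ne.symm h4.2⟩
      · by_contra h
        have h' : H.Adj b b := (hM x _ h).1
        exact h'.ne rfl
  choose c hc1 hc2 hc3 using key
  -- the chain at `b`
  have hsumM : ∑ x ∈ univ.erase b, M x = 0 := by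
    rw [← hcol, ← sum_erase_add _ _ (mem_univ b)]
    have : M b = 0 := by
      by_contra h
      exact (hM0 b h).2 rfl
    rw [this, add_zero]
  have hlab : ∑ x ∈ univ.erase b, (M x + c x) = ∑ x ∈ univ.erase b, c x := by
    rw [sum_add_distrib, hsumM, zero_add]
  set la : α → Chain α := fun x => if x = b then ∑ x ∈ univ.erase b, c x else M x + c x with hla
  have hla_b : la b = ∑ x ∈ univ.erase b, c x := by simp [hla]
  have hla_ne : ∀ x, x ≠ b → la x = M x + c x := fun x hx => by simp [hla, hx]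
  have g1 : ∀ x, la x ∈ Z1 (del H {a, x}) := by
    intro x
    by_cases hxb : x = b
    · subst hxb
      rw [hla_b]
      constructor
      · intro e he
        rw [Finset.sum_apply] at he
        obtain ⟨x', _, hx'⟩ := exists_ne_zero_of_sum_ne_zero he
        have := hc1 x' e hx'
        refine edgeSet_mono ?_ this
        intro u v huv
        refine ⟨huv.1, fun h => huv.2.1 ?_, fun h => huv.2.2 ?_⟩
        · rw [mem_insert, mem_singleton] at h
          rcases h with rfl | rfl <;> simp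
        · rw [mem_insert, mem_singleton] at h
          rcases h with rfl | rfl <;> simp
      · intro v
        rw [← hlab, bdy_sum]
        exact sum_eq_zero fun x' _ => hc2 x' v
    · rw [hla_ne x hxb]
      refine ⟨fun e he => ?_, hc2 x⟩
      rw [Pi.add_apply] at he
      by_cases h1 : M x e = 0
      · rw [h1, zero_add] at he
        have := hc1 x e he
        refine edgeSet_mono ?_ this
        intro u v huv
        refine ⟨huv.1, fun h => huv.2.1 ?_, fun h => huv.2.2 ?_⟩
        · rw [mem_insert, mem_singleton] at h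
          rcases h with rfl | rfl <;> simp
        · rw [mem_insert, mem_singleton] at h
          rcases h with rfl | rfl <;> simp
      · obtain ⟨k1, _, k3, k4⟩ := hM x e h1
        induction e using Sym2.ind with
        | _ u v =>
          simp only [Sym2.mem_iff, not_or] at k3 k4
          refine ⟨k1, ?_, ?_⟩
          · simp only [mem_insert, mem_singleton, not_or]
            exact ⟨Ne.symm k3.1, Ne.symm k4.1⟩
          · simp only [mem_insert, mem_singleton, not_or]
            exact ⟨Ne.symm k3.2, Ne.symm k4.2⟩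
  have g2 : ∀ x, la x ≠ 0 → H.Adj a x ∧ x ∈ VS (del H {a}) := by
    intro x hx
    have h1 : H.Adj a x := by
      by_cases hxb : x = b
      · subst hxb; exact hab
      · rw [hla_ne x hxb] at hx
        by_contra hcon
        have : M x = 0 := by
          by_contra h
          exact hcon (hM0 x h).1
        rw [this, hc3 x this] at hx
        simp at hx
    refine ⟨h1, ?_⟩
    rw [hVSa, mem_sdiff, mem_singleton]
    exact ⟨right_mem_VS h1, h1.ne'⟩
  have g3 : ∑ x, la x = 0 := by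
    rw [← sum_erase_add _ _ (mem_univ b), hla_b]
    have h1 : ∑ x ∈ univ.erase b, la x = ∑ x ∈ univ.erase b, (M x + c x) :=
      sum_congr rfl fun x hx => hla_ne x (ne_of_mem_erase hx)
    rw [h1, hlab]
    exact chain_add_self _
  obtain ⟨w, hw, hw'⟩ := hLPE.star (G := H) (u := a) hS3 la g1 g2 g3
  refine ⟨w, hw, fun x y hax hxb hby hya => ?_⟩
  rw [hw' x _ hax, hla_ne x hxb, Pi.add_apply]
  have : c x s(b, y) = 0 := by
    by_contra h
    exact (hc1 x _ h : (del H {a, b, x}).Adj b y).2.1 (by simp)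
  rw [this, add_zero]

end DL.MATM
end

section
/-!
# MP_3ff0f8_gt, ALGEBRA HALF, module SM3: the cycle space is the sum of three subspaces
-/
open SimpleGraph Finset

namespace DL

namespace SM3M

variable {α : Type} [Fintype α] [DecidableEq α]

/-- every linear functional on chains is given by coefficients -/
lemma functional (φ : Chain α →ₗ[ZMod 2] ZMod 2) :
    ∃ a : Chain α, ∀ Z : Chain α, φ Z = ∑ e, a e * Z e := by
  classical
  refine ⟨fun e => φ (Pi.single e 1), fun Z => ?_⟩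
  have h : Z = ∑ e, Z e • (Pi.single e (1 : ZMod 2) : Chain α) := by
    funext e'
    rw [Finset.sum_apply, Finset.sum_eq_single e']
    · simp
    · intro e _ hne
      simp [Ne.symm hne]
    · intro h
      exact absurd (mem_univ _) h
  conv_lhs => rw [h]
  rw [map_sum]
  refine sum_congr rfl fun e _ => ?_
  rw [map_smul, smul_eq_mul, mul_comm]

end SM3M

open SM3M in
theorem specSM3 (hSTA : SpecSTA) : SpecSM3 := by
  intro α _ _ J hJ k l m hkl hkm hlm c hc
  by_contra hno
  set V : Submodule (ZMod 2) (Chain α) := Z1 (del J {k}) ⊔ Z1 (del J {l}) ⊔ Z1 (del J {m}) with hV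
  have hcV : c ∉ V := by
    intro h
    rw [hV, Submodule.mem_sup] at h
    obtain ⟨x, hx, c₃, h3, rfl⟩ := h
    rw [Submodule.mem_sup] at hx
    obtain ⟨c₁, h1, c₂, h2, rfl⟩ := hx
    exact hno ⟨c₁, h1, c₂, h2, c₃, h3, rfl⟩
  obtain ⟨φ, hφc, hφV⟩ := Submodule.exists_le_ker_of_notMem hcV
  obtain ⟨a, ha⟩ := functional φ
  have hk : ∀ Z ∈ Z1 (del J {k}), ∑ e, a e * Z e = 0 := fun Z hZ => by
    rw [← ha]
    exact hφV (Submodule.mem_sup_left (Submodule.mem_sup_left hZ))
  have hl : ∀ Z ∈ Z1 (del J {l}), ∑ e, a e * Z e = 0 := fun Z hZ => by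
    rw [← ha]
    exact hφV (Submodule.mem_sup_left (Submodule.mem_sup_right hZ))
  have hm : ∀ Z ∈ Z1 (del J {m}), ∑ e, a e * Z e = 0 := fun Z hZ => by
    rw [← ha]
    exact hφV (Submodule.mem_sup_right hZ)
  obtain ⟨κ, hκ, hκZ⟩ := hSTA J l m hlm (hJ.2 {l, m} (lt_of_le_of_lt card_le_two (by norm_num)))
    a hl hm
  have hκ0 : κ ≠ 0 := by
    rintro rfl
    apply hφc
    rw [ha, hκZ c hc, zero_mul]
  have hadj := hκ hκ0
  have hadj' : (del J {k}).Adj l m := ⟨hadj, by simpa using hkl.symm, by simpa using hkm.symm⟩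
  obtain ⟨C, hC, hmem⟩ := (hJ.del_vertex (k := 2) (by norm_num) k).cycle_through_edge hadj'
  have h1 := hk (chi C) hC.chi_mem
  rw [hκZ (chi C) (Z1_mono (del_le _ _) hC.chi_mem), chi_of_mem hmem, mul_one] at h1
  exact hκ0 h1

end DL
end

section
/-!
# MP_3ff0f8_gt, ALGEBRA HALF, module SM4: four subspaces of the cycle space
-/
open SimpleGraph Finset

namespace DL

namespace SM4M

variable {α : Type} [Fintype α] [DecidableEq α]

lemma pairfun (hSTA : SpecSTA) {J : SimpleGraph α} (hJ : KConn 3 J) {x y z : α} (hxy : x ≠ y)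
    {φ : Chain α →ₗ[ZMod 2] ZMod 2}
    (hφ : ∀ Z ∈ Z1 (del J {z}) ⊓ (Z1 (del J {x}) ⊔ Z1 (del J {y})), φ Z = 0) :
    ∃ κ : ZMod 2, (κ ≠ 0 → J.Adj x y) ∧ ∀ Z ∈ Z1 (del J {z}), φ Z = κ * Z s(x, y) := by
  have h1 : φ ∈ (Z1 (del J {z}) ⊓ (Z1 (del J {x}) ⊔ Z1 (del J {y}))).dualAnnihilator := by
    rw [Submodule.mem_dualAnnihilator]
    exact hφ
  rw [Subspace.dualAnnihilator_inf_eq, Submodule.mem_sup] at h1
  obtain ⟨φ₁, h2, φ₂, h3, rfl⟩ := h1
  rw [Submodule.mem_dualAnnihilator] at h2 h3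
  obtain ⟨a, ha⟩ := SM3M.functional φ₂
  obtain ⟨κ, hκ, hκZ⟩ := hSTA J x y hxy
    (hJ.2 {x, y} (lt_of_le_of_lt card_le_two (by norm_num))) a
    (fun Z hZ => by rw [← ha]; exact h3 Z (Submodule.mem_sup_left hZ))
    (fun Z hZ => by rw [← ha]; exact h3 Z (Submodule.mem_sup_right hZ))
  refine ⟨κ, hκ, fun Z hZ => ?_⟩
  rw [LinearMap.add_apply, h2 Z hZ, zero_add, ha, hκZ Z (Z1_mono (del_le _ _) hZ)]

lemma triangle {H : SimpleGraph α} {x y z : α} (hxy : H.Adj x y) (hxz : H.Adj x z)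
    (hyz : H.Adj y z) : IsCyc H {s(x, y), s(x, z), s(z, y)} := by
  have h1 : IsPth H z y {s(z, y)} := IsPth.edge hyz.symm
  have h2 : IsPth H x y (insert s(x, z) {s(z, y)}) := h1.cons hxz (by
    rw [vs_singleton]
    simp [hxz.ne, hxy.ne])
  refine h2.isCyc hxy ?_
  rw [mem_insert, mem_singleton, not_or]
  constructor
  · intro e
    exact hyz.ne (Sym2.congr_right.1 e)
  · intro e
    rw [Sym2.eq_iff] at e
    rcases e with e | e
    · exact hxz.ne e.1
    · exact hxy.ne e.1

end SM4M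

open SM4M in
theorem specSM4 (hSTA : SpecSTA) : SpecSM4 := by
  intro α _ _ J hJ w hw hwV hr c hc
  set A : Fin 4 → Submodule (ZMod 2) (Chain α) := fun i => Z1 (del J {w i}) with hA
  have hne : ∀ i j, i ≠ j → w i ≠ w j := fun i j h h' => h (hw h')
  have hmain : c ∈ (A 0 ⊓ (A 2 ⊔ A 3)) ⊔ (A 0 ⊓ (A 1 ⊔ A 3)) ⊔ (A 0 ⊓ (A 1 ⊔ A 2)) := by
    by_contra hcV
    obtain ⟨φ, hφc, hφV⟩ := Submodule.exists_le_ker_of_notMem hcV
    obtain ⟨κ₁, a₁, e₁⟩ := pairfun hSTA hJ (hne 2 3 (by decide)) (z := w 0) (φ := φ)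
      fun Z hZ => hφV (Submodule.mem_sup_left (Submodule.mem_sup_left hZ))
    obtain ⟨κ₂, a₂, e₂⟩ := pairfun hSTA hJ (hne 1 3 (by decide)) (z := w 0) (φ := φ)
      fun Z hZ => hφV (Submodule.mem_sup_left (Submodule.mem_sup_right hZ))
    obtain ⟨κ₃, a₃, e₃⟩ := pairfun hSTA hJ (hne 1 2 (by decide)) (z := w 0) (φ := φ)
      fun Z hZ => hφV (Submodule.mem_sup_right hZ)
    have hk : ∀ κ : ZMod 2, ∀ x : ZMod 2, φ c = κ * x → κ ≠ 0 := by
      rintro κ x h rfl
      exact hφc (by rw [h, zero_mul])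
    have k₁ := hk κ₁ _ (e₁ c hc)
    have k₂ := hk κ₂ _ (e₂ c hc)
    have k₃ := hk κ₃ _ (e₃ c hc)
    have A₁ : (del J {w 0}).Adj (w 2) (w 3) :=
      ⟨a₁ k₁, by simpa using hne 2 0 (by decide), by simpa using hne 3 0 (by decide)⟩
    have A₂ : (del J {w 0}).Adj (w 1) (w 3) :=
      ⟨a₂ k₂, by simpa using hne 1 0 (by decide), by simpa using hne 3 0 (by decide)⟩
    have A₃ : (del J {w 0}).Adj (w 1) (w 2) :=
      ⟨a₃ k₃, by simpa using hne 1 0 (by decide), by simpa using hne 2 0 (by decide)⟩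
    rw [zmod2_ne_zero.1 k₁] at e₁
    rw [zmod2_ne_zero.1 k₂] at e₂
    rw [zmod2_ne_zero.1 k₃] at e₃
    simp only [one_mul] at e₁ e₂ e₃
    obtain ⟨r, hrV, hrw⟩ := hr
    have h2 : KConn 2 (del J {w 0}) := hJ.del_vertex (k := 2) (by norm_num) (w 0)
    have hrV' : r ∈ VS (del J {w 0}) := by
      rw [hJ.VS_del (by simp)]
      exact mem_sdiff.2 ⟨hrV, by simpa using hrw 0⟩
    obtain ⟨C, hC, hC12, hCr⟩ := h2.cycle_through_edge_vertex A₃ hrV'
    have f₁ := e₁ _ hC.chi_mem
    have f₂ := e₂ _ hC.chi_mem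
    have f₃ := e₃ _ hC.chi_mem
    rw [chi_of_mem hC12] at f₃
    rw [f₃] at f₁ f₂
    have m₁ : s(w 2, w 3) ∈ C := chi_eq_one.1 f₁.symm
    have m₂ : s(w 1, w 3) ∈ C := chi_eq_one.1 f₂.symm
    have hsub : ({s(w 1, w 2), s(w 1, w 3), s(w 3, w 2)} : Finset (Sym2 α)) ⊆ C := by
      intro e he
      simp only [mem_insert, mem_singleton] at he
      rcases he with rfl | rfl | rfl
      · exact hC12
      · exact m₂
      · rw [Sym2.eq_swap]; exact m₁
    have heq := hC.eq_of_subset (triangle A₃ A₂ A₁) hsub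
    rw [← heq] at hCr
    obtain ⟨e, he, hre⟩ := mem_vs.1 hCr
    simp only [mem_insert, mem_singleton] at he
    rcases he with rfl | rfl | rfl
    · rcases Sym2.mem_iff.1 hre with h | h
      · exact hrw _ h
      · exact hrw _ h
    · rcases Sym2.mem_iff.1 hre with h | h
      · exact hrw _ h
      · exact hrw _ h
    · rcases Sym2.mem_iff.1 hre with h | h
      · exact hrw _ h
      · exact hrw _ h
  rw [Submodule.mem_sup] at hmain
  obtain ⟨y, hy, ν₃, h3, rfl⟩ := hmain
  rw [Submodule.mem_sup] at hy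
  obtain ⟨ν₁, h1, ν₂, h2, rfl⟩ := hy
  obtain ⟨h1a, h1b⟩ := Submodule.mem_inf.1 h1
  obtain ⟨h2a, h2b⟩ := Submodule.mem_inf.1 h2
  obtain ⟨h3a, h3b⟩ := Submodule.mem_inf.1 h3
  rw [Submodule.mem_sup] at h1b h2b h3b
  refine ⟨![0, ν₁, ν₂, ν₃], ?_, rfl, rfl, ?_⟩
  · intro p
    fin_cases p
    · exact Submodule.zero_mem _
    · exact h1a
    · exact h2a
    · exact h3a
  · intro p hp
    fin_cases p
    · exact absurd rfl hp
    · obtain ⟨x, hx, y, hy, h⟩ := h1b
      refine ⟨![0, 0, x, y], rfl, rfl, ?_, ?_⟩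
      · intro i
        fin_cases i
        · exact Submodule.zero_mem _
        · exact Submodule.zero_mem _
        · exact hx
        · exact hy
      · change ν₁ = 0 + x + y
        rw [zero_add, h]
    · obtain ⟨x, hx, y, hy, h⟩ := h2b
      refine ⟨![0, x, 0, y], rfl, rfl, ?_, ?_⟩
      · intro i
        fin_cases i
        · exact Submodule.zero_mem _
        · exact hx
        · exact Submodule.zero_mem _
        · exact hy
      · change ν₂ = x + 0 + y
        rw [add_zero, h]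
    · obtain ⟨x, hx, y, hy, h⟩ := h3b
      refine ⟨![0, x, y, 0], rfl, rfl, ?_, ?_⟩
      · intro i
        fin_cases i
        · exact Submodule.zero_mem _
        · exact hx
        · exact hy
        · exact Submodule.zero_mem _
      · change ν₃ = x + y + 0
        rw [add_zero, h]

end DL
end

section
/-!
MP_3ff0f8_gt, ALGEBRA HALF, K block, module STA (helper6)
-/
open SimpleGraph Finset

namespace DL

/-- A functional which vanishes on the cycles of `J - l` and of `J - m` is a multiple of the coordinate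
`lm`. -/
theorem specSTA : SpecSTA := by
  classical
  intro α _ _ J l m hlm hconn a h1 h2
  obtain ⟨s, hs⟩ := cut (G := del J {l}) h1
  -- `a'`
  have ha' : ∀ Z ∈ Z1 (del J {m}), ∑ e, (a + cob s) e * Z e = 0 := by
    intro Z hZ
    simp only [Pi.add_apply, add_mul, sum_add_distrib, h2 Z hZ, cob_orth hZ s, add_zero]
  obtain ⟨t, ht⟩ := cut (G := del J {m}) ha'
  have h0 : ∀ x y, J.Adj x y → x ≠ l → y ≠ l → (a + cob s) s(x, y) = 0 := by
    intro x y hxy hx hy
    have := hs x y ⟨hxy, by simpa using hx, by simpa using hy⟩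
    rw [Pi.add_apply, cob_mk, this]
    exact zmod2_add_self _
  -- `t` is constant
  have htc : ∀ x ∈ VS J, ∀ y ∈ VS J, x ≠ l → x ≠ m → y ≠ l → y ≠ m → t x = t y := by
    intro x hx y hy hxl hxm hyl hym
    obtain ⟨w⟩ := hconn x hx y hy (by simp [hxl, hxm]) (by simp [hyl, hym])
    clear hx hy
    induction w with
    | nil => rfl
    | @cons u v w' huv p ih =>
      have hu : J.Adj u v ∧ u ∉ ({l, m} : Finset α) ∧ v ∉ ({l, m} : Finset α) := huv
      simp only [mem_insert, mem_singleton, not_or] at hu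
      have e1 := ht u v ⟨hu.1, by simpa using hu.2.1.2, by simpa using hu.2.2.2⟩
      rw [h0 u v hu.1 hu.2.1.1 hu.2.2.1] at e1
      have e2 : t u = t v := (CharTwo.add_eq_zero.1 e1.symm)
      rw [e2]
      exact ih hu.2.2.1 hu.2.2.2 hyl hym
  -- the constant `k`
  obtain ⟨k, hk⟩ : ∃ k : ZMod 2, ∀ x, J.Adj l x → x ≠ m → (a + cob s) s(l, x) = k := by
    by_cases hex : ∃ x, J.Adj l x ∧ x ≠ m
    · obtain ⟨x₀, hx₀, hx₀m⟩ := hex
      refine ⟨t l + t x₀, fun x hx hxm => ?_⟩
      rw [ht l x ⟨hx, by simpa using hlm, by simpa using hxm⟩]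
      rw [htc x (right_mem_VS hx) x₀ (right_mem_VS hx₀) hx.ne' hxm hx₀.ne' hx₀m]
    · exact ⟨0, fun x hx hxm => absurd ⟨x, hx, hxm⟩ hex⟩
  set g : Chain α := a + cob s + cob (fun v => if v = l then k else 0) with hg
  have hg0 : ∀ e ∈ J.edgeSet, e ≠ s(l, m) → g e = 0 := by
    intro e he hne
    induction e using Sym2.ind with
    | _ x y =>
      rw [mem_edgeSet] at he
      by_cases hx : x = l
      · subst hx
        have hym : y ≠ m := fun h => hne (by rw [h])
        rw [hg, Pi.add_apply, hk y he hym, cob_mk, if_pos rfl, if_neg he.ne', add_zero]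
        exact zmod2_add_self _
      · by_cases hy : y = l
        · subst hy
          have hxm : x ≠ m := fun h => hne (by rw [h]; exact Sym2.eq_swap)
          rw [Sym2.eq_swap, hg, Pi.add_apply, hk x he.symm hxm, cob_mk, if_pos rfl, if_neg he.ne,
            add_zero]
          exact zmod2_add_self _
        · rw [hg, Pi.add_apply, h0 x y he hx hy, cob_mk, if_neg hx, if_neg hy, add_zero, add_zero]
  refine ⟨if J.Adj l m then g s(l, m) else 0, fun h => ?_, fun Z hZ => ?_⟩
  · by_contra hn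
    exact h (if_neg hn)
  · have e1 : ∑ e, g e * Z e = ∑ e, a e * Z e := by
      simp only [hg, Pi.add_apply, add_mul, sum_add_distrib, cob_orth hZ, add_zero]
    rw [← e1, sum_eq_single s(l, m)]
    · by_cases hadj : J.Adj l m
      · rw [if_pos hadj]
      · rw [if_neg hadj, zero_mul]
        have : Z s(l, m) = 0 := by
          by_contra hn
          exact hadj (hZ.1 _ hn)
        rw [this, mul_zero]
    · intro e _ hne
      by_cases hZe : Z e = 0
      · rw [hZe, mul_zero]
      · rw [hg0 e (hZ.1 e hZe) hne, zero_mul]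
    · intro h
      exact absurd (mem_univ _) h

end DL
end

section
/-!
# MP_3ff0f8_gt, K block: a cubic vertex (helper25)

`KZ G` for a graph with a cubic vertex `u`, from `KZ` of two of the contractions at `u`.
-/
open SimpleGraph Finset

namespace DL

/-- **KY3**.  `u` has exactly the neighbours `t₁, t₂, t₃`; `G - u - t₁ - t₂ - t₃` connected; K2G applies to the contractions of `u t₁` and of `u t₂`. -/
def SpecKY3 : Prop := ∀ {α : Type} [Fintype α] [DecidableEq α] {G : SimpleGraph α} {u t₁ t₂ t₃ : α}, t₁ ≠ t₂ →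
  t₁ ≠ t₃ → t₂ ≠ t₃ → (∀ x, G.Adj u x ↔ x = t₁ ∨ x = t₂ ∨ x = t₃) → S3S (del G {u}) →
  t₂ ∈ VS (del G {u}) → t₃ ∈ VS (del G {u}) → ConnOff G {u, t₁, t₂, t₃} →
  KZ (contr G u t₁) → KZ (contr G u t₂) →
  (NoCN G u t₁ ∨ KConn 3 (contr G u t₁)) → (NoCN G u t₂ ∨ KConn 3 (contr G u t₂)) →
  (∀ x, G.Adj u x → G.Adj t₁ x → S3S (delE (contr G u t₁) u x)) →
  (∀ x, G.Adj u x → G.Adj t₂ x → S3S (delE (contr G u t₂) u x)) → KZ G

namespace KY3M

variable {α : Type} [Fintype α] [DecidableEq α]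

/-- the column of an edge `f` at the cubic vertex `u` -/
theorem col {G : SimpleGraph α} {z : Sym2 α → Sym2 α → ZMod 2} (hz : IsZ2 G z) {u t₁ t₂ t₃ : α}
    (h12 : t₁ ≠ t₂) (h13 : t₁ ≠ t₃) (h23 : t₂ ≠ t₃) (hN : ∀ x, G.Adj u x ↔ x = t₁ ∨ x = t₂ ∨ x = t₃)
    {f : Sym2 α} (hf : u ∉ f) : z s(u, t₁) f + z s(u, t₂) f + z s(u, t₃) f = 0 := by
  classical
  have h1 := hz.2.2 f u hf
  have h2 : ∑ e ∈ univ.filter (fun e => u ∈ e), z f e = ∑ e ∈ ({s(u, t₁), s(u, t₂), s(u, t₃)} : Finset (Sym2 α)), z f e := by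
    symm
    refine sum_subset ?_ ?_
    · intro e he
      simp only [mem_insert, mem_singleton] at he
      rw [mem_filter]
      rcases he with rfl | rfl | rfl <;> simp
    · intro e he he'
      by_contra hne
      have h3 := (hz.2.1 f e hne).2.1
      obtain ⟨y, rfl⟩ := Sym2.mem_iff_exists.1 (mem_filter.1 he).2
      apply he'
      simp only [mem_insert, mem_singleton]
      rcases (hN y).1 h3 with rfl | rfl | rfl
      · exact Or.inl rfl
      · exact Or.inr (Or.inl rfl)
      · exact Or.inr (Or.inr rfl)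
  have hut₁ : u ≠ t₁ := ((hN t₁).2 (Or.inl rfl)).ne
  have hut₂ : u ≠ t₂ := ((hN t₂).2 (Or.inr (Or.inl rfl))).ne
  have hut₃ : u ≠ t₃ := ((hN t₃).2 (Or.inr (Or.inr rfl))).ne
  rw [h2, sum_insert, sum_insert, sum_singleton] at h1
  · rw [hz.1 s(u, t₁) f, hz.1 s(u, t₂) f, hz.1 s(u, t₃) f, add_assoc]
    exact h1
  · rw [mem_singleton, Sym2.eq_iff]
    rintro (⟨_, h⟩ | ⟨h, _⟩)
    · exact h23 h
    · exact hut₃ h
  · rw [mem_insert, mem_singleton, Sym2.eq_iff, Sym2.eq_iff]
    rintro ((⟨_, h⟩ | ⟨h, _⟩) | (⟨_, h⟩ | ⟨h, _⟩))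
    · exact h12 h
    · exact hut₂ h
    · exact h13 h
    · exact hut₃ h

/-- splitting a 2-cycle at a cubic vertex -/
theorem core (hLPE : SpecLPE) {G : SimpleGraph α} {u t₁ t₂ t₃ : α} (h12 : t₁ ≠ t₂) (h13 : t₁ ≠ t₃)
    (h23 : t₂ ≠ t₃) (hN : ∀ x, G.Adj u x ↔ x = t₁ ∨ x = t₂ ∨ x = t₃) (hS : S3S (del G {u}))
    (hV2 : t₂ ∈ VS (del G {u})) (hV3 : t₃ ∈ VS (del G {u})) (hcon : ConnOff G {u, t₁, t₂, t₃})
    {z : Sym2 α → Sym2 α → ZMod 2} (hz : IsZ2 G z) :
    ∃ z', IsZ2 G z' ∧ (∀ e f, u ∈ e → t₂ ∈ f → e ≠ s(u, t₂) → f ≠ s(u, t₂) → z' e f = 0) ∧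
      ∀ e f, u ∈ e → t₁ ∈ f → e ≠ s(u, t₁) → f ≠ s(u, t₁) → z e f + z' e f = 0 := by
  classical
  have a1 : G.Adj u t₁ := (hN t₁).2 (Or.inl rfl)
  have a2 : G.Adj u t₂ := (hN t₂).2 (Or.inr (Or.inl rfl))
  have a3 : G.Adj u t₃ := (hN t₃).2 (Or.inr (Or.inr rfl))
  -- entries which vanish since the edges meet
  have hzero : ∀ (z : Sym2 α → Sym2 α → ZMod 2), IsZ2 G z → ∀ (e f : Sym2 α) (v : α), v ∈ e → v ∈ f → z e f = 0 := by
    intro z hz e f v he hf
    by_contra h
    exact (hz.2.1 e f h).2.2 v ⟨he, hf⟩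
  -- the star of the row of `u t₂` at `t₁`
  set m : Chain α := fun e => if t₁ ∈ e then z s(u, t₂) e else 0 with hm
  have hm1 : ∀ e, m e ≠ 0 → t₁ ∈ e := by
    intro e he
    by_contra h
    simp only [hm, if_neg h] at he
    exact he rfl
  have hmr : ∀ y, m s(t₁, y) = z s(u, t₂) s(t₁, y) := by
    intro y
    simp [hm]
  have hmsum : ∑ e, m e = 0 := by
    have h1 := hz.2.2 s(u, t₂) t₁ (by
      rw [Sym2.mem_iff]
      rintro (h | h)
      · exact a1.ne h.symm
      · exact h12 h)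
    rw [← h1, sum_filter]
  have hm23 : m s(t₁, t₂) = 0 ∧ m s(t₁, t₃) = 0 := by
    constructor
    · rw [hmr]
      exact hzero z hz _ _ t₂ (by simp) (by simp)
    · rw [hmr]
      have h := col hz h12 h13 h23 hN (f := s(t₁, t₃)) (by
        rw [Sym2.mem_iff]
        rintro (h | h)
        · exact a1.ne h
        · exact a3.ne h)
      rw [hzero z hz s(u, t₁) s(t₁, t₃) t₁ (by simp) (by simp),
        hzero z hz s(u, t₃) s(t₁, t₃) t₃ (by simp) (by simp), zero_add, add_zero] at h
      exact h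
  obtain ⟨c, hc1, hc2, -⟩ := MATM.complete (H := G) (b := t₁) (S := {u, t₁, t₂, t₃}) (by simp) hm1 hmsum (by
      intro y hy
      have hy' := hy
      rw [hmr] at hy'
      obtain ⟨_, hE, hD⟩ := hz.2.1 _ _ hy'
      have hE' : G.Adj t₁ y := hE
      refine ⟨?_, right_mem_VS hE'⟩
      simp only [mem_insert, mem_singleton, not_or]
      refine ⟨?_, hE'.ne', ?_, ?_⟩
      · rintro rfl
        exact hD y ⟨by simp, by simp⟩
      · rintro rfl
        exact hy hm23.1
      · rintro rfl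
        exact hy hm23.2) hcon (by
      rw [hmr]
      by_contra h
      exact (hz.2.1 _ _ h).2.1.ne rfl)
  -- the cycle `mu`
  set mu : Chain α := m + c with hmu
  have hmu_t1 : ∀ y, mu s(t₁, y) = z s(u, t₂) s(t₁, y) := by
    intro y
    have h0 : c s(t₁, y) = 0 := by
      by_contra h
      have h' : (del G {u, t₁, t₂, t₃}).Adj t₁ y := hc1 _ h
      exact h'.2.1 (by simp)
    simp only [hmu, Pi.add_apply, h0, add_zero, hmr]
  have hmu_E : ∀ e, mu e ≠ 0 → e ∈ (del G {u, t₂, t₃}).edgeSet := by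
    intro e he
    by_cases h : t₁ ∈ e
    · obtain ⟨y, rfl⟩ := Sym2.mem_iff_exists.1 h
      have he' := he
      rw [hmu_t1] at he'
      obtain ⟨_, hE, hD⟩ := hz.2.1 _ _ he'
      have hE' : G.Adj t₁ y := hE
      have hyu : y ≠ u := by
        rintro rfl
        exact hD y ⟨by simp, by simp⟩
      have hy2 : y ≠ t₂ := by
        rintro rfl
        rw [hmu_t1, ← hmr] at he
        exact he hm23.1
      have hy3 : y ≠ t₃ := by
        rintro rfl
        rw [hmu_t1, ← hmr] at he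
        exact he hm23.2
      refine ⟨hE', ?_, ?_⟩
      · simp only [mem_insert, mem_singleton, not_or]
        exact ⟨a1.ne', h12, h13⟩
      · simp only [mem_insert, mem_singleton, not_or]
        exact ⟨hyu, hy2, hy3⟩
    · have h0 : m e = 0 := by simp [hm, h]
      have hce : c e ≠ 0 := by
        simpa [hmu, h0] using he
      refine edgeSet_mono ?_ (hc1 e hce)
      intro p q hpq
      refine ⟨hpq.1, fun h => hpq.2.1 ?_, fun h => hpq.2.2 ?_⟩
      · simp only [mem_insert, mem_singleton] at h ⊢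
        tauto
      · simp only [mem_insert, mem_singleton] at h ⊢
        tauto
  have hmu_Z : ∀ w, w = t₂ ∨ w = t₃ → mu ∈ Z1 (del G {u, w}) := by
    intro w hw
    refine ⟨fun e he => edgeSet_mono ?_ (hmu_E e he), hc2⟩
    intro p q hpq
    refine ⟨hpq.1, fun h => hpq.2.1 ?_, fun h => hpq.2.2 ?_⟩
    · simp only [mem_insert, mem_singleton] at h ⊢
      rcases h with h | h
      · exact Or.inl h
      · rcases hw with rfl | rfl
        · exact Or.inr (Or.inl h)
        · exact Or.inr (Or.inr h)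
    · simp only [mem_insert, mem_singleton] at h ⊢
      rcases h with h | h
      · exact Or.inl h
      · rcases hw with rfl | rfl
        · exact Or.inr (Or.inl h)
        · exact Or.inr (Or.inr h)
  -- the 2-cycle with rows `0, mu, mu`
  obtain ⟨z', hz', hr⟩ := hLPE.star (G := G) (u := u) hS
    (fun w => if w = t₂ ∨ w = t₃ then mu else 0) (by
      intro w
      by_cases hw : w = t₂ ∨ w = t₃
      · rw [if_pos hw]
        exact hmu_Z w hw
      · rw [if_neg hw]
        exact Submodule.zero_mem _) (by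
      intro w hw
      by_cases hw' : w = t₂ ∨ w = t₃
      · rcases hw' with rfl | rfl
        · exact ⟨a2, hV2⟩
        · exact ⟨a3, hV3⟩
      · rw [if_neg hw'] at hw
        exact absurd rfl hw) (by
      rw [← sum_filter]
      have h1 : (univ.filter fun w : α => w = t₂ ∨ w = t₃) = {t₂, t₃} := by
        ext w
        simp
      rw [h1, sum_pair h23]
      exact chain_add_self _)
  have r1 : ∀ f, z' s(u, t₁) f = 0 := by
    intro f
    rw [hr t₁ f a1, if_neg (by
      rintro (h | h)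
      · exact h12 h
      · exact h13 h)]
    rfl
  have r2 : ∀ f, z' s(u, t₂) f = mu f := by
    intro f
    rw [hr t₂ f a2, if_pos (Or.inl rfl)]
  have r3 : ∀ f, z' s(u, t₃) f = mu f := by
    intro f
    rw [hr t₃ f a3, if_pos (Or.inr rfl)]
  -- edges at `u`
  have hedge : ∀ (z : Sym2 α → Sym2 α → ZMod 2), IsZ2 G z → ∀ e f, u ∈ e → z e f ≠ 0 →
      e = s(u, t₁) ∨ e = s(u, t₂) ∨ e = s(u, t₃) := by
    intro z hz e f he hne
    obtain ⟨y, rfl⟩ := Sym2.mem_iff_exists.1 he
    have h1 : G.Adj u y := (hz.2.1 _ _ hne).1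
    rcases (hN y).1 h1 with rfl | rfl | rfl
    · exact Or.inl rfl
    · exact Or.inr (Or.inl rfl)
    · exact Or.inr (Or.inr rfl)
  refine ⟨z', hz', ?_, ?_⟩
  · intro e f he hf hne hnf
    by_contra hcon
    rcases hedge z' hz' e f he hcon with rfl | rfl | rfl
    · exact hcon (r1 f)
    · exact hne rfl
    · rw [r3] at hcon
      obtain ⟨y, rfl⟩ := Sym2.mem_iff_exists.1 hf
      have h' : (del G {u, t₂, t₃}).Adj t₂ y := hmu_E _ hcon
      exact h'.2.1 (by simp)
  · intro e f he hf hne hnf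
    by_contra hcon
    obtain ⟨y, rfl⟩ := Sym2.mem_iff_exists.1 hf
    have hyu : y ≠ u := by
      rintro rfl
      exact hnf (Sym2.eq_swap)
    have hE : e = s(u, t₁) ∨ e = s(u, t₂) ∨ e = s(u, t₃) := by
      by_cases h0 : z e s(t₁, y) = 0
      · rw [h0, zero_add] at hcon
        exact hedge z' hz' e _ he hcon
      · exact hedge z hz e _ he h0
    rcases hE with rfl | rfl | rfl
    · exact hne rfl
    · apply hcon
      rw [r2, hmu_t1]
      exact zmod2_add_self _
    · apply hcon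
      rw [r3, hmu_t1]
      have h := col hz h12 h13 h23 hN (f := s(t₁, y)) (by
        rw [Sym2.mem_iff]
        rintro (h | h)
        · exact a1.ne h
        · exact hyu h.symm)
      rw [hzero z hz s(u, t₁) s(t₁, y) t₁ (by simp) (by simp), zero_add] at h
      rw [add_comm]
      exact h

end KY3M

open KY3M in
theorem specKY3 (hKUR : SpecKUR) (hK2G : SpecK2G) (hLPE : SpecLPE) : SpecKY3 := by
  intro α _ _ G u t₁ t₂ t₃ h12 h13 h23 hN hS hV2 hV3 hcon k1 k2 n1 n2 s1 s2
  rw [hKUR.kz]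
  intro z hz
  obtain ⟨z', hz', h2, h1⟩ := core hLPE h12 h13 h23 hN hS hV2 hV3 hcon hz
  have hz2 : z = fun e f => (z e f + z' e f) + z' e f := by
    funext e f
    rw [add_assoc, zmod2_add_self, add_zero]
  rw [hz2]
  exact hKUR.add (hK2G ((hN t₁).2 (Or.inl rfl)) n1 k1 s1 _ (hKUR.zadd hz hz') h1)
    (hK2G ((hN t₂).2 (Or.inr (Or.inl rfl))) n2 k2 s2 _ hz' h2)

/-- **KY4**.  The same with the contractions in the other direction (`contr G t₁ u` is `G - u` with the edges `t₁t₂`, `t₁t₃`). -/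
def SpecKY4 : Prop := ∀ {α : Type} [Fintype α] [DecidableEq α] {G : SimpleGraph α} {u t₁ t₂ t₃ : α}, t₁ ≠ t₂ →
  t₁ ≠ t₃ → t₂ ≠ t₃ → (∀ x, G.Adj u x ↔ x = t₁ ∨ x = t₂ ∨ x = t₃) → S3S (del G {u}) →
  t₂ ∈ VS (del G {u}) → t₃ ∈ VS (del G {u}) → ConnOff G {u, t₁, t₂, t₃} →
  KZ (contr G t₁ u) → KZ (contr G t₂ u) →
  (NoCN G t₁ u ∨ KConn 3 (contr G t₁ u)) → (NoCN G t₂ u ∨ KConn 3 (contr G t₂ u)) →
  (∀ x, G.Adj t₁ x → G.Adj u x → S3S (delE (contr G t₁ u) t₁ x)) →
  (∀ x, G.Adj t₂ x → G.Adj u x → S3S (delE (contr G t₂ u) t₂ x)) → KZ G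

open KY3M in
theorem specKY4 (hKUR : SpecKUR) (hK2G : SpecK2G) (hLPE : SpecLPE) : SpecKY4 := by
  intro α _ _ G u t₁ t₂ t₃ h12 h13 h23 hN hS hV2 hV3 hcon k1 k2 n1 n2 s1 s2
  rw [hKUR.kz]
  intro z hz
  obtain ⟨z', hz', h2, h1⟩ := core hLPE h12 h13 h23 hN hS hV2 hV3 hcon hz
  have hz2 : z = fun e f => (z e f + z' e f) + z' e f := by
    funext e f
    rw [add_assoc, zmod2_add_self, add_zero]
  rw [hz2]
  refine hKUR.add (hK2G ((hN t₁).2 (Or.inl rfl)).symm n1 k1 s1 _ (hKUR.zadd hz hz') ?_)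
    (hK2G ((hN t₂).2 (Or.inr (Or.inl rfl))).symm n2 k2 s2 _ hz' ?_)
  · intro e f he hf hne hnf
    show z e f + z' e f = 0
    rw [hz.1 e f, hz'.1 e f]
    exact h1 f e hf he (by rw [Sym2.eq_swap]; exact hnf) (by rw [Sym2.eq_swap]; exact hne)
  · intro e f he hf hne hnf
    rw [hz'.1 e f]
    exact h2 f e hf he (by rw [Sym2.eq_swap]; exact hnf) (by rw [Sym2.eq_swap]; exact hne)

end DL
end
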